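import Pool.Agent.H943R6.MC.Base
import Pool.Agent.H620R2.Gauge2.V6

/-!
# Task ASY: the choice of the parameters (helper228)
-/

namespace Pool.Agent.H943R6.MC

open Pool.Agent.NPC Pool.Agent.H620R2.Gauge Pool.Agent.H622R2.Ckt Finset H568R2

namespace ASY

open Filter

/-- the choice of the length, a power of two -/
theorem choose (Q : Polynomial ℕ) (f : ℕ → ℝ) (hf : Cond f) (A : ℕ → Prop)
    (hA : ∀ᶠ n : ℕ in atTop, A n) :
    ∃ j N : ℕ, 8 ≤ j ∧ A (2 ^ j) ∧ 2 ^ (Q.eval (2 ^ j) + 1) ≤ N ∧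
      f N ≤ 2 ^ Real.sqrt ((2 ^ j : ℕ) : ℝ) := by
  set Q' : Polynomial ℕ := Q + Polynomial.X with hQ'
  have hQ'ev : ∀ n, Q'.eval n = Q.eval n + n := by intro n; simp [hQ']
  set e : ℕ := Q'.natDegree with he
  set D : ℕ := e + 1 with hD
  have hpow : Tendsto (fun j : ℕ => 2 ^ j) atTop atTop :=
    tendsto_pow_atTop_atTop_of_one_lt (by norm_num)
  have hev : ∀ᶠ j : ℕ in atTop, 8 ≤ j ∧ A (2 ^ j) ∧ Q'.eval 1 * 2 ^ e + 1 ≤ 2 ^ j := by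
    filter_upwards [eventually_ge_atTop 8, hpow.eventually hA,
      hpow.eventually (eventually_ge_atTop (Q'.eval 1 * 2 ^ e + 1))] with n h1 h5 h6
    exact ⟨h1, h5, h6⟩
  obtain ⟨n1, hn1⟩ := eventually_atTop.1 hev
  -- the choice of N
  set ε : ℝ := 1 / (2 * (D : ℝ)) with hε
  have hD0 : (0 : ℝ) < D := by rw [hD]; positivity
  have hε0 : 0 < ε := by positivity
  obtain ⟨N, hN1, hN2⟩ := ((hf ε hε0).and_eventually
    (eventually_ge_atTop (2 ^ (Q'.eval (2 ^ n1) + 1)))).exists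
  -- the choice of n
  have hbig : ∀ m, 2 ^ (Q'.eval (2 ^ m) + 1) ≤ N → m ≤ N := by
    intro m hm
    have h1 : m < 2 ^ m := Nat.lt_two_pow_self
    have h3 : 2 ^ m < 2 ^ 2 ^ m := Nat.lt_two_pow_self
    have h2 : 2 ^ 2 ^ m ≤ 2 ^ (Q'.eval (2 ^ m) + 1) :=
      Nat.pow_le_pow_right (by norm_num) (by rw [hQ'ev]; omega)
    omega
  set n : ℕ := Nat.findGreatest (fun m => 2 ^ (Q'.eval (2 ^ m) + 1) ≤ N) N with hn
  have hnP : 2 ^ (Q'.eval (2 ^ n) + 1) ≤ N :=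
    Nat.findGreatest_spec (P := fun m => 2 ^ (Q'.eval (2 ^ m) + 1) ≤ N) (hbig n1 hN2) hN2
  have hn1n : n1 ≤ n :=
    Nat.le_findGreatest (P := fun m => 2 ^ (Q'.eval (2 ^ m) + 1) ≤ N) (hbig n1 hN2) hN2
  have hmax : N < 2 ^ (Q'.eval (2 ^ (n + 1)) + 1) := by
    by_contra hcon
    push Not at hcon
    have := Nat.le_findGreatest (P := fun m => 2 ^ (Q'.eval (2 ^ m) + 1) ≤ N) (hbig _ hcon) hcon
    rw [← hn] at this
    omega
  obtain ⟨c8, c1, c7⟩ := hn1 n hn1n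
  have c6 : 1 ≤ 2 ^ n := Nat.one_le_two_pow
  -- f N is small
  have hNpos : 1 ≤ N := le_trans Nat.one_le_two_pow hN2
  have hlog : Real.logb 2 N ≤ (((2 ^ n) ^ D : ℕ) : ℝ) := by
    have h1 : (N : ℝ) ≤ (2 : ℝ) ^ (Q'.eval (2 ^ (n + 1)) + 1) := by exact_mod_cast hmax.le
    have h2 : Real.logb 2 N ≤ ((Q'.eval (2 ^ (n + 1)) + 1 : ℕ) : ℝ) := by
      have h3 := Real.logb_le_logb_of_le (b := 2) (by norm_num)
        (by exact_mod_cast hNpos : (0 : ℝ) < N) h1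
      rw [Real.logb_pow, Real.logb_self_eq_one (by norm_num), mul_one] at h3
      exact h3
    refine h2.trans ?_
    have h4 : Q'.eval (2 ^ (n + 1)) + 1 ≤ (2 ^ n) ^ D := by
      have h5 : Q'.eval (2 ^ (n + 1)) ≤ Q'.eval 1 * (2 * 2 ^ n) ^ e := by
        refine (Y_poly_le Q' (2 ^ (n + 1)) Nat.one_le_two_pow).trans ?_
        exact Nat.mul_le_mul_left _ (Nat.pow_le_pow_left (by rw [pow_succ]; omega) _)
      have h6 : 1 ≤ (2 ^ n) ^ e := Nat.one_le_pow _ _ c6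
      calc Q'.eval (2 ^ (n + 1)) + 1 ≤ Q'.eval 1 * (2 * 2 ^ n) ^ e + 1 := by omega
        _ = Q'.eval 1 * 2 ^ e * (2 ^ n) ^ e + 1 := by rw [mul_pow]; ring
        _ ≤ Q'.eval 1 * 2 ^ e * (2 ^ n) ^ e + (2 ^ n) ^ e := by omega
        _ = (Q'.eval 1 * 2 ^ e + 1) * (2 ^ n) ^ e := by ring
        _ ≤ 2 ^ n * (2 ^ n) ^ e := Nat.mul_le_mul_right _ c7
        _ = (2 ^ n) ^ D := by rw [hD, pow_succ]; ring
    exact_mod_cast h4
  have hlog0 : 0 ≤ Real.logb 2 N := Real.logb_nonneg (by norm_num) (by exact_mod_cast hNpos)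
  have hsqrt : (Real.logb 2 N) ^ ε ≤ Real.sqrt ((2 ^ n : ℕ) : ℝ) := by
    generalize hM : 2 ^ n = M at *
    have hn0 : (0 : ℝ) ≤ M := Nat.cast_nonneg M
    calc (Real.logb 2 N) ^ ε ≤ (((M ^ D : ℕ) : ℝ)) ^ ε := Real.rpow_le_rpow hlog0 hlog hε0.le
      _ = (M : ℝ) ^ (1 / 2 : ℝ) := by
          push_cast
          rw [← Real.rpow_natCast, ← Real.rpow_mul hn0]
          congr 1
          rw [hε]; field_simp
      _ = Real.sqrt M := by rw [Real.sqrt_eq_rpow]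
  refine ⟨n, N, c8, c1, ?_, ?_⟩
  · refine le_trans ?_ hnP
    exact Nat.pow_le_pow_right (by norm_num) (by rw [hQ'ev]; omega)
  · exact hN1.trans (Real.rpow_le_rpow_of_exponent_le (by norm_num) hsqrt)

end ASY

/-- Task ASY -/
theorem asy (P1 P2 Q : Polynomial ℕ) {f : ℕ → ℝ} (hf : Cond f) (δ : ℝ) (hδ : 0 < δ) :
    ∃ j, 8 ≤ j ∧ ∃ N : ℕ, 2 ^ (Q.eval (2 ^ j) + 1) ≤ N ∧
      ((2 : ℝ) ^ (P1.eval (2 ^ j) + 1) * (2 * (P2.eval (2 ^ j) + 1) *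
        (5 / 8) ^ (2 ^ 2 ^ j / (2 * (P2.eval (2 ^ j) + 1))))) * 2 ^ f N ≤ δ := by
  obtain ⟨j, N, hj, ⟨a1, a2, a3, a4⟩, b, c⟩ :=
    ASY.choose Q f hf _ (V69_ev (P1 + P2 + 2) δ)
  refine ⟨j, hj, N, b, ?_⟩
  generalize 2 ^ j = n at *
  have hev : (P1 + P2 + 2).eval n = P1.eval n + P2.eval n + 2 := by simp
  rw [hev] at a1
  set u : ℕ := n / 2 with hu
  have h2u : 2 * u ≤ n := Nat.mul_div_le n 2
  have hpp : 2 ^ u * 2 ^ u ≤ 2 ^ n := by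
    rw [← pow_add]
    exact Nat.pow_le_pow_right (by norm_num) (by omega)
  have hTu : 2 ^ u ≤ 2 ^ n / (2 * (P2.eval n + 1)) := by
    rw [Nat.le_div_iff_mul_le (by positivity)]
    refine le_trans ?_ hpp
    exact Nat.mul_le_mul_left _ (by omega)
  have hF : 16 * f N ≤ (2 : ℝ) ^ u := by
    have h1 : f N ≤ 2 ^ ((u : ℝ) - 4) :=
      c.trans (Real.rpow_le_rpow_of_exponent_le (by norm_num) (by linarith))
    rw [Real.rpow_sub (by norm_num), Real.rpow_natCast] at h1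
    have h2 : (2 : ℝ) ^ (4 : ℝ) = 16 := by norm_num
    rw [h2] at h1
    linarith
  have hp : 16 * ((P1.eval n + P2.eval n + 2 : ℕ) : ℝ) ≤ (2 : ℝ) ^ u := by
    have : 16 * (P1.eval n + P2.eval n + 2) ≤ 2 ^ u := by omega
    exact_mod_cast this
  have hT1 : (8 : ℝ) ≤ (2 : ℝ) ^ u := by
    have : 8 ≤ 2 ^ u := by omega
    exact_mod_cast this
  have hh := V69_half (2 ^ u)
  push_cast at hh
  have hm := V69_real δ hδ (P1.eval n + P2.eval n + 2 : ℕ) (2 ^ u) (f N) hp hF a2 hT1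
  rw [Real.rpow_natCast] at hm
  refine le_trans ?_ hm
  have h0 : (0 : ℝ) < 2 ^ f N := by positivity
  refine mul_le_mul_of_nonneg_right ?_ h0.le
  have h1 : ((P2.eval n : ℕ) : ℝ) + 1 ≤ 2 ^ (P2.eval n) := by
    have : P2.eval n + 1 ≤ 2 ^ (P2.eval n) := Nat.lt_two_pow_self
    exact_mod_cast this
  have h2 : ((5 : ℝ) / 8) ^ (2 ^ n / (2 * (P2.eval n + 1))) ≤ 2 ^ (-((2 : ℝ) ^ u / 2)) := by
    calc ((5 : ℝ) / 8) ^ (2 ^ n / (2 * (P2.eval n + 1))) ≤ (5 / 8) ^ (2 ^ u) :=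
          pow_le_pow_of_le_one (by norm_num) (by norm_num) hTu
      _ ≤ (2 / 3) ^ (2 ^ u) := pow_le_pow_left₀ (by norm_num) (by norm_num) _
      _ ≤ _ := hh
  have h3 : (0 : ℝ) ≤ 2 ^ (-((2 : ℝ) ^ u / 2)) := by positivity
  calc (2 : ℝ) ^ (P1.eval n + 1) * (2 * ((P2.eval n : ℕ) + 1) *
        (5 / 8) ^ (2 ^ n / (2 * (P2.eval n + 1))))
      ≤ (2 : ℝ) ^ (P1.eval n + 1) * (2 * 2 ^ (P2.eval n) * 2 ^ (-((2 : ℝ) ^ u / 2))) := by
        gcongr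
    _ = (2 : ℝ) ^ (P1.eval n + P2.eval n + 2) * 2 ^ (-((2 : ℝ) ^ u / 2)) := by
        rw [pow_add, pow_add, pow_add]; ring
    _ ≤ (2 : ℝ) ^ (P1.eval n + P2.eval n + 2) * (2 * 2 ^ (-((2 : ℝ) ^ u / 2))) := by
        have h4 : (0 : ℝ) < (2 : ℝ) ^ (P1.eval n + P2.eval n + 2) := by positivity
        nlinarith

end Pool.Agent.H943R6.MC
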