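import Pool.Agent.H943R6.MC.Defs
import Pool.Agent.H622R2.Ckt.CNT
import Pool.Agent.H622R2.Ckt.CIR
import Pool.Agent.H622R2.Ckt.LOC
import Pool.Agent.H620R2.Gauge2.CoverN

/-!
# The objects of the proof
-/

namespace Pool.Agent.H943R6.MC

open Pool.Agent.NPC Pool.Agent.H620R2.Gauge Pool.Agent.H622R2.Ckt Finset H568R2

/-- The circuit with one gate, which asks whether `u x` is in the oracle (`|x| = n`). -/
def askC (u : List Bool) (n : ℕ) : Circuit :=
  ⟨[Gate.ask (u.map Wire.cst ++ (List.range n).map Wire.inp)], Wire.gate 0⟩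

/-- the size of the planted circuits at scale `j` (seeds of length `2 ^ j`, `2 * j` variables) -/
def sz (j : ℕ) : ℕ := 2 ^ j + 2 * j + 1

/-- the length of the instances at scale `j` -/
def len (j : ℕ) : ℕ := 2 * 2 ^ (2 * j) + 1 + sz j

/-- the instance for the table `T` at scale `j` -/
def inst (j : ℕ) (T : Fin (2 ^ (2 * j)) → Bool) : List Bool :=
  pairBits (List.ofFn T) (List.replicate (sz j) true)

/-- the oracles for which the parameters are good -/
def EasyM (Φ : Circuit → Prop) (θ : Par) : Set Oracle :=
  {A | ∃ (V : List Bool → List Bool) (h : ℕ → List Bool),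
    (∀ x, θ.M.out A x = some (V x)) ∧ (∀ n, (h n).length ≤ θ.p'.eval n) ∧
    ∀ x, x ∈ (MinSize Φ A)ᶜ ↔ ∃ w : List Bool,
      w.length ≤ θ.p.eval (pairBits x (h x.length)).length ∧
      V (pairBits w (pairBits x (h x.length))) = [true]}

/-- With advice `h` and the first `N` bits `a` of the oracle, the algorithm accepts the instance
for the table `T` (for some witness). -/
def AccE (θ : Par) (N j : ℕ) (h : List Bool) (T : Fin (2 ^ (2 * j)) → Bool) (a : Fin N → Bool) :
    Prop :=
  ∃ w : List Bool, w.length ≤ θ.p.eval (2 * len j + 1 + h.length) ∧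
    θ.M.out (orc N a) (pairBits w (pairBits (inst j T) h)) = some [true]

theorem length_bitsOf' : ∀ n j : ℕ, (bitsOf n j).length = n
  | 0, _ => rfl
  | n + 1, j => by simp [bitsOf, length_bitsOf' n (j / 2)]

theorem length_cube_mem : ∀ (n : ℕ), ∀ x ∈ cube n, x.length = n
  | 0, x, hx => by simp [cube] at hx; simp [hx]
  | n + 1, x, hx => by
    simp only [cube, List.mem_append, List.mem_map] at hx
    rcases hx with ⟨y, hy, rfl⟩ | ⟨y, hy, rfl⟩ <;> simp [length_cube_mem n y hy]

theorem length_cube : ∀ n : ℕ, (cube n).length = 2 ^ n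
  | 0 => rfl
  | n + 1 => by simp [cube, length_cube n, pow_succ]; ring

/-- the number (in the list of all strings) of the `i`-th entry of the table planted with the
`s`-th seed -/
def pos (N j : ℕ) (hN : 2 ^ (2 ^ j + 2 * j + 1) ≤ N) (s : ℕ) (i : Fin (2 ^ (2 * j))) : Fin N :=
  ⟨idx (bitsOf (2 ^ j) s ++ (cube (2 * j))[i.1]'(by rw [length_cube]; exact i.2)), by
    have h1 := idx_lt (bitsOf (2 ^ j) s ++ (cube (2 * j))[i.1]'(by rw [length_cube]; exact i.2))
    rw [List.length_append, length_bitsOf',
      length_cube_mem (2 * j) _ (List.getElem_mem _)] at h1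
    omega⟩

/-- The event: for some advice `h` no planted table is accepted, but at least `3/4` of all tables
are. -/
def EvM (θ : Par) (N j : ℕ) (hN : 2 ^ (2 ^ j + 2 * j + 1) ≤ N) (a : Fin N → Bool) : Prop :=
  ∃ c ≤ θ.p'.eval (len j), ∃ h : List Bool, h.length = c ∧
    (∀ s < 2 ^ 2 ^ j, ¬ AccE θ N j h (fun i => a (pos N j hN s i)) a) ∧
    ∃ G : Finset (Fin (2 ^ (2 * j)) → Bool), (∀ T ∈ G, AccE θ N j h T a) ∧
      (3 / 4 : ℝ) * 2 ^ 2 ^ (2 * j) ≤ G.card

/-- a bound for `len j` in terms of `2 ^ j` -/
noncomputable def lenP : Polynomial ℕ := 2 * Polynomial.X ^ 2 + 3 * Polynomial.X + 2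

/-- a bound for the length of the advice in terms of `2 ^ j` -/
noncomputable def Par.P1 (θ : Par) : Polynomial ℕ := θ.p'.comp lenP

/-- a bound for the length of the inputs of the algorithm -/
noncomputable def Par.P3 (θ : Par) : Polynomial ℕ :=
  2 * θ.p.comp (2 * lenP + 1 + Par.P1 θ) + 1 + (2 * lenP + 1 + Par.P1 θ)

/-- a bound for the number of questions -/
noncomputable def Par.P2 (θ : Par) : Polynomial ℕ := θ.M.p.comp (Par.P3 θ)

/-! ### Coded circuits, for the proof that the minimum size problem is in `NP` -/

/-- codes for wires -/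
abbrev CW : Type := ℕ ⊕ Bool ⊕ ℕ

/-- codes for gates: AND, OR, NOT, oracle gate -/
abbrev CG : Type := (CW × CW) ⊕ (CW × CW) ⊕ CW ⊕ List CW

/-- decoding of wires -/
def toW : CW → Wire
  | .inl i => .inp i
  | .inr (.inl b) => .cst b
  | .inr (.inr j) => .gate j

/-- decoding of gates -/
def toG : CG → Gate
  | .inl p => .and (toW p.1) (toW p.2)
  | .inr (.inl p) => .or (toW p.1) (toW p.2)
  | .inr (.inr (.inl r)) => .not (toW r)
  | .inr (.inr (.inr l)) => .ask (l.map toW)

/-- decoding of circuits -/
def toC (c : List CG × CW) : Circuit := ⟨c.1.map toG, toW c.2⟩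

/-- `cube n`, computed from a table of length `2 ^ n` -/
def cubeOf (T : List Bool) : List (List Bool) :=
  T.foldl (fun X _ => if X.length < T.length then
    X.map (List.cons false) ++ X.map (List.cons true) else X) [[]]

/-- the question of gate number `i` on input `x` with the values `v` of all gates (if it is an
oracle gate) -/
def qg (x v : List Bool) (i : ℕ) : CG → List (List Bool)
  | .inr (.inr (.inr l)) => [l.map (fun r => (toW r).val x (v.take i))]
  | _ => []

/-- the value which the list `v` claims for gate number `i` (if it is an oracle gate) -/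
def cg (v : List Bool) (i : ℕ) : CG → List Bool
  | .inr (.inr (.inr _)) => [v.getD i false]
  | _ => []

/-- gate number `i` has the right value in the list `v` (always true for oracle gates) -/
def okg (x v : List Bool) (i : ℕ) : CG → Bool
  | .inl p => v.getD i false == ((toW p.1).val x (v.take i) && (toW p.2).val x (v.take i))
  | .inr (.inl p) => v.getD i false == ((toW p.1).val x (v.take i) || (toW p.2).val x (v.take i))
  | .inr (.inr (.inl r)) => v.getD i false == !((toW r).val x (v.take i))
  | .inr (.inr (.inr _)) => true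

/-- all questions on input `x` -/
def qs (gs : List CG) (x v : List Bool) : List (List Bool) :=
  gs.zipIdx.flatMap fun p => qg x v p.2 p.1

/-- all claimed answers -/
def cs (gs : List CG) (v : List Bool) : List Bool := gs.zipIdx.flatMap fun p => cg v p.2 p.1

/-- the list `v` of values is right, up to the oracle gates -/
def oks (gs : List CG) (x v : List Bool) : Bool :=
  (gs.zipIdx.all fun p => okg x v p.2 p.1) && v.length == gs.length

end Pool.Agent.H943R6.MC
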