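import Pool.Agent.H943R6.MC.Base

/-!
# Task PRD: independent blocks (helper864)
-/

namespace Pool.Agent.H943R6.MC

open Pool.Agent.NPC Pool.Agent.H620R2.Gauge Pool.Agent.H622R2.Ckt Finset H568R2

namespace PRD

section

variable {I : Type*} {m : ℕ}

open Classical in
/-- the values on the block `P` are replaced by `T` -/
noncomputable def rep (P : Fin m → I) (T : Fin m → Bool) (a : I → Bool) : I → Bool :=
  fun x => if h : ∃ i, P i = x then T h.choose else a x

theorem rep_in (P : Fin m → I) (hP : Function.Injective P) (T : Fin m → Bool) (a : I → Bool)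
    (i : Fin m) : rep P T a (P i) = T i := by
  have h : ∃ j, P j = P i := ⟨i, rfl⟩
  unfold rep
  rw [dif_pos h]
  congr 1
  exact hP h.choose_spec

theorem rep_out (P : Fin m → I) (T : Fin m → Bool) (a : I → Bool) (x : I)
    (hx : ∀ i, P i ≠ x) : rep P T a x = a x := by
  unfold rep
  rw [dif_neg]
  rintro ⟨i, hi⟩
  exact hx i hi

/-- exchange of the block with the replacement -/
noncomputable def ex (P : Fin m → I) (hP : Function.Injective P) :
    Equiv.Perm ((I → Bool) × (Fin m → Bool)) := by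
  have h : Function.Involutive (fun p : (I → Bool) × (Fin m → Bool) =>
      (rep P p.2 p.1, fun i => p.1 (P i))) := by
    rintro ⟨a, T⟩
    refine Prod.ext ?_ ?_
    · funext x
      change rep P (fun i => a (P i)) (rep P T a) x = a x
      by_cases hx : ∃ i, P i = x
      · obtain ⟨i, rfl⟩ := hx
        rw [rep_in P hP]
      · have hx' : ∀ i, P i ≠ x := fun i hi => hx ⟨i, hi⟩
        rw [rep_out P _ _ x hx', rep_out P _ _ x hx']
    · funext i
      change rep P T a (P i) = T i
      exact rep_in P hP T a i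
  exact h.toPerm

variable [Fintype I] [DecidableEq I]

theorem sum_rep (P : Fin m → I) (hP : Function.Injective P) (F : (I → Bool) → ℝ) :
    ∑ a : I → Bool, ∑ T : Fin m → Bool, F (rep P T a) = 2 ^ m * ∑ a : I → Bool, F a := by
  have h1 : ∑ a : I → Bool, ∑ T : Fin m → Bool, F (rep P T a) =
      ∑ p : (I → Bool) × (Fin m → Bool), F ((ex P hP p).1) :=
    (Fintype.sum_prod_type (fun p : (I → Bool) × (Fin m → Bool) => F (rep P p.2 p.1))).symm
  rw [h1, Equiv.sum_comp (ex P hP) (fun p => F p.1), Fintype.sum_prod_type, Finset.mul_sum]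
  refine Finset.sum_congr rfl fun a _ => ?_
  simp

open Classical in
theorem main (C : Finset ℕ) (P : ℕ → Fin m → I)
    (hP : ∀ s ∈ C, ∀ s' ∈ C, ∀ i i', P s i = P s' i' → s = s' ∧ i = i')
    (G : (I → Bool) → Finset (Fin m → Bool))
    (hG : ∀ a a' : I → Bool, (∀ x, (∀ s ∈ C, ∀ i, x ≠ P s i) → a x = a' x) → G a = G a')
    (δ : ℝ) (hδ : δ ≤ 1) (hcard : ∀ a, δ * 2 ^ m ≤ (G a).card) (C' : Finset ℕ) :
    C' ⊆ C → ∑ a : I → Bool, (if ∀ s ∈ C', (fun i => a (P s i)) ∉ G a then (1 : ℝ) else 0) ≤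
      (1 - δ) ^ C'.card * 2 ^ Fintype.card I := by
  induction C' using Finset.induction_on with
  | empty =>
    intro _
    simp
  | insert s0 C'' hs0 ih =>
    intro hsub
    have hs0C : s0 ∈ C := hsub (Finset.mem_insert_self _ _)
    have hsub' : C'' ⊆ C := fun x hx => hsub (Finset.mem_insert_of_mem hx)
    have ih' := ih hsub'
    have hinj : Function.Injective (P s0) := fun i j hij => (hP s0 hs0C s0 hs0C i j hij).2
    have h2m : (0 : ℝ) < 2 ^ m := by positivity
    have key : ∀ (a : I → Bool) (T : Fin m → Bool),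
        (if ∀ s ∈ insert s0 C'', (fun i => rep (P s0) T a (P s i)) ∉ G (rep (P s0) T a)
          then (1 : ℝ) else 0) =
        (if ∀ s ∈ C'', (fun i => a (P s i)) ∉ G a then (1 : ℝ) else 0) *
          (if T ∈ (G a)ᶜ then (1 : ℝ) else 0) := by
      intro a T
      have h1 : G (rep (P s0) T a) = G a := by
        apply hG
        intro x hx
        exact rep_out _ _ _ x fun i hi => hx s0 hs0C i hi.symm
      have h2 : (fun i => rep (P s0) T a (P s0 i)) = T := by
        funext i
        exact rep_in _ hinj _ _ _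
      have h3 : ∀ s ∈ C'', (fun i => rep (P s0) T a (P s i)) = fun i => a (P s i) := by
        intro s hs
        funext i
        apply rep_out
        intro j hj
        have := (hP s0 hs0C s (hsub' hs) j i hj).1
        exact hs0 (this ▸ hs)
      have h4 : (∀ s ∈ insert s0 C'', (fun i => rep (P s0) T a (P s i)) ∉ G (rep (P s0) T a)) ↔
          (∀ s ∈ C'', (fun i => a (P s i)) ∉ G a) ∧ T ∈ (G a)ᶜ := by
        rw [h1, Finset.forall_mem_insert, h2, Finset.mem_compl, and_comm]
        refine and_congr_left fun _ => ?_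
        refine forall₂_congr fun s hs => ?_
        rw [h3 s hs]
      by_cases h5 : ∀ s ∈ C'', (fun i => a (P s i)) ∉ G a
      · by_cases h6 : T ∈ (G a)ᶜ
        · rw [if_pos (h4.2 ⟨h5, h6⟩), if_pos h5, if_pos h6, one_mul]
        · rw [if_neg (fun h => h6 (h4.1 h).2), if_neg h6, mul_zero]
      · rw [if_neg (fun h => h5 (h4.1 h).1), if_neg h5, zero_mul]
    have hsum := sum_rep (P s0) hinj (fun a : I → Bool =>
      if ∀ s ∈ insert s0 C'', (fun i => a (P s i)) ∉ G a then (1 : ℝ) else 0)
    beta_reduce at hsum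
    have hb : ∑ a : I → Bool, ∑ T : Fin m → Bool,
        (if ∀ s ∈ insert s0 C'', (fun i => rep (P s0) T a (P s i)) ∉ G (rep (P s0) T a)
          then (1 : ℝ) else 0) ≤
        ∑ a : I → Bool, (if ∀ s ∈ C'', (fun i => a (P s i)) ∉ G a then (1 : ℝ) else 0) *
          ((1 - δ) * 2 ^ m) := by
      refine Finset.sum_le_sum fun a _ => ?_
      rw [Finset.sum_congr rfl fun T _ => key a T, ← Finset.mul_sum]
      refine mul_le_mul_of_nonneg_left ?_ (by split_ifs <;> norm_num)
      rw [Finset.sum_ite_mem, Finset.univ_inter, Finset.sum_const, nsmul_eq_mul, mul_one,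
        Finset.card_compl]
      have h7 : (G a).card ≤ Fintype.card (Fin m → Bool) := Finset.card_le_univ _
      rw [Nat.cast_sub h7]
      have h8 : ((Fintype.card (Fin m → Bool) : ℕ) : ℝ) = 2 ^ m := by simp
      rw [h8]
      have := hcard a
      linarith
    rw [hsum, ← Finset.sum_mul] at hb
    have h9 : (0:ℝ) ≤ (1 - δ) * 2 ^ m := mul_nonneg (by linarith) h2m.le
    have h10 := hb.trans (mul_le_mul_of_nonneg_right ih' h9)
    rw [Finset.card_insert_of_notMem hs0]
    have h11 : (1 - δ) ^ C''.card * 2 ^ Fintype.card I * ((1 - δ) * 2 ^ m) =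
        2 ^ m * ((1 - δ) ^ (C''.card + 1) * 2 ^ Fintype.card I) := by ring
    rw [h11] at h10
    exact le_of_mul_le_mul_left h10 h2m

end

end PRD

open Classical in
theorem prd {I : Type*} [Fintype I] [DecidableEq I] {m : ℕ} (C : Finset ℕ) (P : ℕ → Fin m → I)
    (hP : ∀ s ∈ C, ∀ s' ∈ C, ∀ i i', P s i = P s' i' → s = s' ∧ i = i')
    (G : (I → Bool) → Finset (Fin m → Bool))
    (hG : ∀ a a' : I → Bool, (∀ x, (∀ s ∈ C, ∀ i, x ≠ P s i) → a x = a' x) → G a = G a')
    (δ : ℝ) (hδ : δ ≤ 1) (hcard : ∀ a, δ * 2 ^ m ≤ (G a).card) :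
    Ex unif (fun a : I → Bool =>
      if ∀ s ∈ C, (fun i => a (P s i)) ∉ G a then (1 : ℝ) else 0) ≤ (1 - δ) ^ C.card := by
  have h := PRD.main C P hP G hG δ hδ hcard C (Finset.Subset.refl _)
  unfold Ex unif
  simp only [Finset.prod_const]
  rw [← Finset.mul_sum, Finset.card_univ]
  have h2 : (0:ℝ) ≤ (1 / 2) ^ Fintype.card I := by positivity
  refine (mul_le_mul_of_nonneg_left h h2).trans (le_of_eq ?_)
  have h3 : ((1:ℝ) / 2) ^ Fintype.card I * 2 ^ Fintype.card I = 1 := by
    rw [← mul_pow]; norm_num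
  calc ((1:ℝ) / 2) ^ Fintype.card I * ((1 - δ) ^ C.card * 2 ^ Fintype.card I) =
      (1 - δ) ^ C.card * (((1:ℝ) / 2) ^ Fintype.card I * 2 ^ Fintype.card I) := by ring
    _ = _ := by rw [h3, mul_one]

end Pool.Agent.H943R6.MC
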