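import Pool.Agent.H943R6.MC.Base
import Pool.Agent.H943R6.MC.PRD
import Pool.Agent.H620R2.Gauge.Comb

/-!
# Averaging over colours (helper756)
-/

set_option autoImplicit false

namespace Pool.Agent.H943R6.MC

open Pool.Agent.NPC Pool.Agent.H620R2.Gauge Pool.Agent.H622R2.Ckt Finset H568R2

namespace CMB

/-- the seeds of colour `c` -/
def col (q K c : ℕ) : Finset ℕ := (range K).filter (fun s => s % (2 * q) = c)

theorem card_col {q K c : ℕ} (hc : c < 2 * q) : K / (2 * q) ≤ (col q K c).card := by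
  have h1 : (range (K / (2 * q))).image (fun t => 2 * q * t + c) ⊆ col q K c := by
    intro s hs
    obtain ⟨t, ht, rfl⟩ := mem_image.1 hs
    have ht' := mem_range.1 ht
    refine mem_filter.2 ⟨mem_range.2 ?_, ?_⟩
    · have h2 : 2 * q * (K / (2 * q)) ≤ K := Nat.mul_div_le _ _
      have h3 : 2 * q * (t + 1) ≤ 2 * q * (K / (2 * q)) := Nat.mul_le_mul_left _ ht'
      have h4 : 2 * q * (t + 1) = 2 * q * t + 2 * q := by ring
      omega
    · rw [Nat.mul_add_mod, Nat.mod_eq_of_lt hc]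
  calc K / (2 * q) = (range (K / (2 * q))).card := (card_range _).symm
    _ = ((range (K / (2 * q))).image (fun t => 2 * q * t + c)).card := by
        rw [card_image_of_injective]
        intro s t hst
        have h5 : 2 * q * s = 2 * q * t := by
          have : 2 * q * s + c = 2 * q * t + c := hst
          omega
        exact Nat.eq_of_mul_eq_mul_left (by omega) h5
    _ ≤ _ := card_le_card h1

variable {I : Type*} [Fintype I] [DecidableEq I] {m : ℕ}

open Classical in
/-- the tables with a certificate that avoids the blocks of the seeds in `C` -/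
noncomputable def Gc (q : ℕ) (P : ℕ → Fin m → I) (Acc : (Fin m → Bool) → (I → Bool) → Prop)
    (C : Finset ℕ) (a : I → Bool) : Finset (Fin m → Bool) :=
  univ.filter (fun T => ∃ Q : Finset I, Q.card ≤ q ∧ (∀ x ∈ Q, ∀ s ∈ C, ∀ i, x ≠ P s i) ∧
    ∀ a' : I → Bool, (∀ x ∈ Q, a' x = a x) → Acc T a')

open Classical in
theorem Gc_sub (q : ℕ) (P : ℕ → Fin m → I) (Acc : (Fin m → Bool) → (I → Bool) → Prop)
    (C : Finset ℕ) (a a' : I → Bool) (h : ∀ x, (∀ s ∈ C, ∀ i, x ≠ P s i) → a x = a' x) :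
    Gc q P Acc C a ⊆ Gc q P Acc C a' := by
  intro T hT
  obtain ⟨Q, h1, h2, h3⟩ := (mem_filter.1 hT).2
  refine mem_filter.2 ⟨mem_univ _, Q, h1, h2, fun b hb => h3 b fun x hx => ?_⟩
  rw [hb x hx, h x (h2 x hx)]

open Classical in
theorem Gc_congr (q : ℕ) (P : ℕ → Fin m → I) (Acc : (Fin m → Bool) → (I → Bool) → Prop)
    (C : Finset ℕ) (a a' : I → Bool) (h : ∀ x, (∀ s ∈ C, ∀ i, x ≠ P s i) → a x = a' x) :
    Gc q P Acc C a = Gc q P Acc C a' :=
  Subset.antisymm (Gc_sub q P Acc C a a' h) (Gc_sub q P Acc C a' a fun x hx => (h x hx).symm)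

open Classical in
theorem Gc_acc {q : ℕ} {P : ℕ → Fin m → I} {Acc : (Fin m → Bool) → (I → Bool) → Prop}
    {C : Finset ℕ} {a : I → Bool} {T : Fin m → Bool} (h : T ∈ Gc q P Acc C a) : Acc T a := by
  obtain ⟨Q, _, _, h3⟩ := (mem_filter.1 h).2
  exact h3 a fun _ _ => rfl

open Classical in
theorem many_colours {q K : ℕ} (P : ℕ → Fin m → I)
    (hP : ∀ s < K, ∀ s' < K, ∀ i i', P s i = P s' i' → s = s' ∧ i = i')
    (Acc : (Fin m → Bool) → (I → Bool) → Prop) (a : I → Bool) (T : Fin m → Bool)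
    (hT : ∃ Q : Finset I, Q.card ≤ q ∧ ∀ a' : I → Bool, (∀ x ∈ Q, a' x = a x) → Acc T a') :
    q ≤ ((range (2 * q)).filter (fun c => T ∈ Gc q P Acc (col q K c) a)).card := by
  obtain ⟨Q, hQ, hQ'⟩ := hT
  have h1 : ((range (2 * q)).filter (fun c => ¬ T ∈ Gc q P Acc (col q K c) a)).card ≤ q := by
    refine le_trans ?_ hQ
    have h2 : (range (2 * q)).filter (fun c => ¬ T ∈ Gc q P Acc (col q K c) a) ⊆
        Q.image (fun x => if h : ∃ s, s < K ∧ ∃ i, x = P s i then
          Classical.choose h % (2 * q) else 0) := by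
      intro c hc
      have hc' := (mem_filter.1 hc).2
      have h3 : ¬ ∀ x ∈ Q, ∀ s ∈ col q K c, ∀ i, x ≠ P s i := by
        intro h4
        exact hc' (mem_filter.2 ⟨mem_univ _, Q, hQ, h4, hQ'⟩)
      push Not at h3
      obtain ⟨x, hx, s, hs, i, hxi⟩ := h3
      have hs' := mem_filter.1 hs
      have hsK : s < K := mem_range.1 hs'.1
      refine mem_image.2 ⟨x, hx, ?_⟩
      have h5 : ∃ s, s < K ∧ ∃ i, x = P s i := ⟨s, hsK, i, hxi⟩
      rw [dif_pos h5]
      obtain ⟨h6, i', h7⟩ := Classical.choose_spec h5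
      have h8 := (hP _ h6 s hsK i' i (by rw [← h7, hxi])).1
      rw [h8]
      exact hs'.2
    exact (card_le_card h2).trans card_image_le
  have h9 := Finset.card_filter_add_card_filter_not (s := range (2 * q))
    (fun c => T ∈ Gc q P Acc (col q K c) a)
  rw [card_range] at h9
  omega

open Classical in
theorem exists_colour {q K : ℕ} (hq : 1 ≤ q) (P : ℕ → Fin m → I)
    (hP : ∀ s < K, ∀ s' < K, ∀ i i', P s i = P s' i' → s = s' ∧ i = i')
    (Acc : (Fin m → Bool) → (I → Bool) → Prop) (a : I → Bool) (G : Finset (Fin m → Bool))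
    (hG : ∀ T ∈ G, ∃ Q : Finset I, Q.card ≤ q ∧ ∀ a' : I → Bool, (∀ x ∈ Q, a' x = a x) → Acc T a')
    (hc : (3 / 4 : ℝ) * 2 ^ m ≤ G.card) :
    ∃ c < 2 * q, (3 / 8 : ℝ) * 2 ^ m ≤ (Gc q P Acc (col q K c) a).card := by
  by_contra hcon
  push Not at hcon
  have h1 : G.card * q ≤ ∑ c ∈ range (2 * q), (Gc q P Acc (col q K c) a).card := by
    calc G.card * q = ∑ _T ∈ G, q := by rw [sum_const, smul_eq_mul]
      _ ≤ ∑ T ∈ G, ((range (2 * q)).filter (fun c => T ∈ Gc q P Acc (col q K c) a)).card :=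
          sum_le_sum fun T hT => many_colours P hP Acc a T (hG T hT)
      _ = ∑ T ∈ G, ∑ c ∈ range (2 * q), if T ∈ Gc q P Acc (col q K c) a then 1 else 0 :=
          sum_congr rfl fun T _ => card_filter _ _
      _ = ∑ c ∈ range (2 * q), ∑ T ∈ G, if T ∈ Gc q P Acc (col q K c) a then 1 else 0 := sum_comm
      _ ≤ ∑ c ∈ range (2 * q), (Gc q P Acc (col q K c) a).card := by
          refine sum_le_sum fun c _ => ?_
          rw [← card_filter]
          exact card_le_card fun T hT => (mem_filter.1 hT).2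
  have h2 : (∑ c ∈ range (2 * q), ((Gc q P Acc (col q K c) a).card : ℝ)) <
      ∑ _c ∈ range (2 * q), (3 / 8 : ℝ) * 2 ^ m := by
    refine sum_lt_sum_of_nonempty ⟨0, mem_range.2 (by omega)⟩ fun c hc => ?_
    exact hcon c (mem_range.1 hc)
  rw [sum_const, card_range, nsmul_eq_mul] at h2
  have h3 : (G.card : ℝ) * q ≤ ∑ c ∈ range (2 * q), ((Gc q P Acc (col q K c) a).card : ℝ) := by
    exact_mod_cast h1
  have h4 : (3 / 4 : ℝ) * 2 ^ m * q ≤ G.card * q := by gcongr
  push_cast at h2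
  linarith

end CMB

open Classical in
theorem cmb {I : Type*} [Fintype I] [DecidableEq I] {m q K : ℕ} (hq : 1 ≤ q) (P : ℕ → Fin m → I)
    (hP : ∀ s < K, ∀ s' < K, ∀ i i', P s i = P s' i' → s = s' ∧ i = i')
    (Acc : (Fin m → Bool) → (I → Bool) → Prop)
    (hA : ∀ T a, Acc T a → ∃ Q : Finset I, Q.card ≤ q ∧
      ∀ a' : I → Bool, (∀ x ∈ Q, a' x = a x) → Acc T a') :
    Ex unif (fun a : I → Bool =>
      if (∀ s < K, ¬ Acc (fun i => a (P s i)) a) ∧
        (∃ G : Finset (Fin m → Bool), (∀ T ∈ G, Acc T a) ∧ (3 / 4 : ℝ) * 2 ^ m ≤ G.card)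
      then (1 : ℝ) else 0) ≤ 2 * q * (5 / 8) ^ (K / (2 * q)) := by
  set G' : ℕ → (I → Bool) → Finset (Fin m → Bool) := fun c a =>
    if (3 / 8 : ℝ) * 2 ^ m ≤ (CMB.Gc q P Acc (CMB.col q K c) a).card then
      CMB.Gc q P Acc (CMB.col q K c) a else univ with hG'
  have h1 : ∀ c ∈ range (2 * q), Ex unif (fun a : I → Bool =>
      if ∀ s ∈ CMB.col q K c, (fun i => a (P s i)) ∉ G' c a then (1 : ℝ) else 0) ≤
        (5 / 8) ^ (K / (2 * q)) := by
    intro c hc
    have h2 := prd (CMB.col q K c) P (fun s hs s' hs' => hP s (mem_range.1 (mem_filter.1 hs).1) s'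
      (mem_range.1 (mem_filter.1 hs').1)) (G' c) (fun a a' haa' => by
        simp only [hG']
        rw [CMB.Gc_congr q P Acc _ a a' haa']) (3 / 8) (by norm_num) (fun a => by
        simp only [hG']
        split_ifs with h
        · exact h
        · rw [card_univ, Fintype.card_fun, Fintype.card_bool, Fintype.card_fin]
          push_cast
          have : (0 : ℝ) < 2 ^ m := by positivity
          linarith)
    refine h2.trans ?_
    rw [show (1 : ℝ) - 3 / 8 = 5 / 8 by norm_num]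
    exact pow_le_pow_of_le_one (by norm_num) (by norm_num) (CMB.card_col (mem_range.1 hc))
  calc Ex unif (fun a : I → Bool =>
      if (∀ s < K, ¬ Acc (fun i => a (P s i)) a) ∧
        (∃ G : Finset (Fin m → Bool), (∀ T ∈ G, Acc T a) ∧ (3 / 4 : ℝ) * 2 ^ m ≤ G.card)
      then (1 : ℝ) else 0) ≤ Ex unif (fun a : I → Bool => ∑ c ∈ range (2 * q),
        if ∀ s ∈ CMB.col q K c, (fun i => a (P s i)) ∉ G' c a then (1 : ℝ) else 0) := by
        refine Ex_mono unif_nonneg fun a => ?_
        have hnn : ∀ c ∈ range (2 * q), (0 : ℝ) ≤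
            if ∀ s ∈ CMB.col q K c, (fun i => a (P s i)) ∉ G' c a then (1 : ℝ) else 0 := by
          intro c _
          split_ifs <;> norm_num
        split_ifs with h
        · obtain ⟨h3, G, h4, h5⟩ := h
          obtain ⟨c, hc, hc'⟩ := CMB.exists_colour hq P hP Acc a G (fun T hT => hA T a (h4 T hT)) h5
          refine le_trans ?_ (single_le_sum hnn (mem_range.2 hc))
          rw [if_pos]
          intro s hs
          simp only [hG', if_pos hc']
          intro h6
          exact h3 s (mem_range.1 (mem_filter.1 hs).1) (CMB.Gc_acc h6)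
        · exact sum_nonneg hnn
    _ = ∑ c ∈ range (2 * q), Ex unif (fun a : I → Bool =>
        if ∀ s ∈ CMB.col q K c, (fun i => a (P s i)) ∉ G' c a then (1 : ℝ) else 0) := Ex_sum _ _ _
    _ ≤ ∑ _c ∈ range (2 * q), (5 / 8 : ℝ) ^ (K / (2 * q)) := sum_le_sum h1
    _ = 2 * q * (5 / 8) ^ (K / (2 * q)) := by
        rw [sum_const, card_range, nsmul_eq_mul]
        push_cast
        ring

end Pool.Agent.H943R6.MC
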