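import Pool.Agent.H622R2.Ckt.Defs

/-!
# The minimum circuit size problem relative to an oracle

(Continues `Pool.Agent.H622R2.Ckt.Defs`, circuits with oracle gates.)
-/

namespace Pool.Agent.H943R6.MC

open Pool.Agent.NPC Pool.Agent.H620R2.Gauge Pool.Agent.H622R2.Ckt

/-- The bit strings of length `n`, in lexicographic order. -/
def cube : ℕ → List (List Bool)
  | 0 => [[]]
  | n + 1 => (cube n).map (List.cons false) ++ (cube n).map (List.cons true)

/-- The truth table of `f` on the strings of length `n`: the `2 ^ n` values in lexicographic
order. -/
def table (n : ℕ) (f : List Bool → Bool) : List Bool := (cube n).map f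

/-- The wires used by a gate. -/
def gateWires : Gate → List Wire
  | .and r s => [r, s]
  | .or r s => [r, s]
  | .not r => [r]
  | .ask l => l

/-- The gate whose value the wire carries (if it is one). -/
def wireGate : Wire → Option ℕ
  | .gate j => some j
  | _ => none

/-- Every gate is used at most once (by the other gates and the output wire together): the circuit
is a formula. -/
def IsFormula (C : Circuit) : Prop :=
  ((C.gates.flatMap gateWires ++ [C.out]).filterMap wireGate).Nodup

/-- The minimum size problem for the circuits with property `Φ` and gates for the oracle `A`: the
pairs `⟨T, 1 ^ s⟩`, where `T` is the truth table of a function of some number `n` of variables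
that is computed by a circuit of size at most `s` with property `Φ`. -/
def MinSize (Φ : Circuit → Prop) (A : Oracle) : Set (List Bool) :=
  {y | ∃ (n s : ℕ) (C : Circuit), Φ C ∧ C.size ≤ s ∧
    y = pairBits (table n (C.eval A)) (List.replicate s true)}

/-- The minimum circuit size problem relative to `A`. -/
def MCSP (A : Oracle) : Set (List Bool) := MinSize (fun _ => True) A

/-- The minimum formula size problem relative to `A`. -/
def MFSP (A : Oracle) : Set (List Bool) := MinSize IsFormula A

end Pool.Agent.H943R6.MC
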