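import Pool.Agent.H943R6.MC.Base
import Pool.Agent.H620R2.Gauge.A1
import Pool.Agent.H620R2.Gauge.S

/-!
# Task PLT (helper243): planted tables
-/

namespace Pool.Agent.H943R6.MC

open Pool.Agent.NPC Pool.Agent.H620R2.Gauge Pool.Agent.H622R2.Ckt Finset H568R2

theorem size_askC (u : List Bool) (n : ℕ) : (askC u n).size = u.length + n + 1 := by
  simp [askC, Circuit.size, Gate.size]

theorem eval_askC (u : List Bool) (A : Oracle) (x : List Bool) :
    (askC u x.length).eval A x = A (u ++ x) := by
  have h1 : ∀ (w x z : List Bool), (w.map Wire.cst).map (Wire.val x z) = w := by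
    intro w x z
    rw [List.map_map]
    exact List.map_id w
  have h2 : ((List.range x.length).map Wire.inp).map (Wire.val x []) = x := by
    rw [List.map_map]
    exact CIR.map_getD x
  simp only [askC, Circuit.eval, gateVals, List.foldl_cons, List.foldl_nil, Gate.val, Wire.val,
    List.map_append, h1, h2, List.nil_append]
  simp

theorem askC_isFormula (u : List Bool) (n : ℕ) : IsFormula (askC u n) := by
  have h1 : (u.map Wire.cst).filterMap wireGate = [] := by
    rw [List.filterMap_eq_nil_iff]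
    intro a ha
    obtain ⟨b, _, rfl⟩ := List.mem_map.1 ha
    rfl
  have h2 : ((List.range n).map Wire.inp).filterMap wireGate = [] := by
    rw [List.filterMap_eq_nil_iff]
    intro a ha
    obtain ⟨b, _, rfl⟩ := List.mem_map.1 ha
    rfl
  have h3 : ([Wire.gate 0] : List Wire).filterMap wireGate = [0] := rfl
  unfold IsFormula askC
  simp only [List.flatMap_cons, List.flatMap_nil, List.append_nil, gateWires,
    List.filterMap_append, h1, h2, h3, List.nil_append]
  simp

theorem PLT.idx_inj {y y' : List Bool} (h : idx y = idx y') : y = y' := by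
  rw [← str_idx y, ← str_idx y', h]

theorem PLT.cube_nodup : ∀ n : ℕ, (cube n).Nodup
  | 0 => by simp [cube]
  | n + 1 => by
    rw [cube, List.nodup_append]
    refine ⟨(PLT.cube_nodup n).map (fun a b h => (List.cons.inj h).2),
      (PLT.cube_nodup n).map (fun a b h => (List.cons.inj h).2), ?_⟩
    intro a ha b hb hab
    obtain ⟨x, _, rfl⟩ := List.mem_map.1 ha
    obtain ⟨y, _, rfl⟩ := List.mem_map.1 hb
    have := (List.cons.inj hab).1
    exact absurd this (by decide)

theorem planted (Φ : Circuit → Prop) (hΦ : ∀ u n, Φ (askC u n)) (A : Oracle) {N j : ℕ}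
    (hN : 2 ^ (2 ^ j + 2 * j + 1) ≤ N) (s : ℕ) :
    inst j (fun i => pre N A (pos N j hN s i)) ∈ MinSize Φ A := by
  refine ⟨2 * j, sz j, askC (bitsOf (2 ^ j) s) (2 * j), hΦ _ _, ?_, ?_⟩
  · rw [size_askC, length_bitsOf']
    exact le_rfl
  · unfold inst
    congr 1
    apply List.ext_getElem
    · simp [table, length_cube]
    · intro i h1 h2
      have h3 : i < (cube (2 * j)).length := by
        rw [length_cube]; simpa using h1
      have h4 : ((cube (2 * j))[i]'h3).length = 2 * j :=
        length_cube_mem _ _ (List.getElem_mem _)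
      have h5 : (askC (bitsOf (2 ^ j) s) (2 * j)).eval A ((cube (2 * j))[i]'h3) =
          A (bitsOf (2 ^ j) s ++ (cube (2 * j))[i]'h3) := by
        have h6 := eval_askC (bitsOf (2 ^ j) s) A ((cube (2 * j))[i]'h3)
        rwa [h4] at h6
      simp only [table, List.getElem_map, List.getElem_ofFn, h5, pre, pos, str_idx]

theorem pos_inj {N j : ℕ} (hN : 2 ^ (2 ^ j + 2 * j + 1) ≤ N) {s s' : ℕ} (hs : s < 2 ^ 2 ^ j)
    (hs' : s' < 2 ^ 2 ^ j) {i i' : Fin (2 ^ (2 * j))} (h : pos N j hN s i = pos N j hN s' i') :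
    s = s' ∧ i = i' := by
  have h1 : bitsOf (2 ^ j) s ++ (cube (2 * j))[i.1]'(by rw [length_cube]; exact i.2) =
      bitsOf (2 ^ j) s' ++ (cube (2 * j))[i'.1]'(by rw [length_cube]; exact i'.2) :=
    PLT.idx_inj (congrArg Fin.val h)
  obtain ⟨h2, h3⟩ := List.append_inj h1 (by rw [length_bitsOf', length_bitsOf'])
  refine ⟨bitsOf_inj hs hs' h2, ?_⟩
  exact Fin.ext ((PLT.cube_nodup (2 * j)).getElem_inj_iff.1 h3)

theorem length_inst (j : ℕ) (T : Fin (2 ^ (2 * j)) → Bool) : (inst j T).length = len j := by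
  unfold inst len
  rw [Pool.Agent.H620R2.Gauge.length_pairBits, List.length_ofFn, List.length_replicate]

theorem len_le (j : ℕ) : len j ≤ lenP.eval (2 ^ j) := by
  have h1 : lenP.eval (2 ^ j) = 2 * (2 ^ j) ^ 2 + 3 * 2 ^ j + 2 := by
    simp [lenP]
  rw [h1]
  have h2 : j < 2 ^ j := Nat.lt_two_pow_self
  have h3 : (2 : ℕ) ^ (2 * j) = (2 ^ j) ^ 2 := by rw [← pow_mul, mul_comm]
  unfold len sz
  rw [h3]
  omega

end Pool.Agent.H943R6.MC
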