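import Pool.Agent.H943R6.MC.Base

/-!
# Task HRD: few tables are easy (helper228)
-/

namespace Pool.Agent.H943R6.MC

open Pool.Agent.NPC Pool.Agent.H620R2.Gauge Pool.Agent.H622R2.Ckt Finset H568R2

namespace HRD

theorem pairBits_inj {x x' w w' : List Bool} (h : pairBits x w = pairBits x' w') :
    x = x' ∧ w = w' := by
  have h1 := congrArg unpair h
  rw [unpair_pairBits, unpair_pairBits, Prod.mk.injEq] at h1
  exact h1

theorem two_pow_ge {j : ℕ} (hj : 8 ≤ j) : 8 * j + 8 ≤ 2 ^ j := by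
  induction j, hj using Nat.le_induction with
  | base => norm_num
  | succ j hj ih => rw [pow_succ]; omega

theorem nC_le {j : ℕ} (hj : 8 ≤ j) : 4 * nC (2 * j) (sz j) ≤ 2 ^ 2 ^ (2 * j) := by
  have h := two_pow_ge hj
  have h1 : 2 * j + sz j + 8 ≤ 2 ^ (j + 1) := by
    unfold sz; rw [pow_succ]; omega
  have h2 : 4 * sz j + 4 ≤ 5 * 2 ^ j := by
    unfold sz; omega
  have h3 : nC (2 * j) (sz j) ≤ 2 ^ ((j + 1) * (5 * 2 ^ j)) := by
    unfold nC
    calc (2 * j + sz j + 8) ^ (4 * sz j + 4) ≤ (2 ^ (j + 1)) ^ (4 * sz j + 4) :=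
          Nat.pow_le_pow_left h1 _
      _ ≤ (2 ^ (j + 1)) ^ (5 * 2 ^ j) := Nat.pow_le_pow_right (by positivity) h2
      _ = 2 ^ ((j + 1) * (5 * 2 ^ j)) := (pow_mul _ _ _).symm
  have h4 : (j + 1) * (5 * 2 ^ j) + 2 ≤ 2 ^ (2 * j) := by
    have h5 : 2 ^ (2 * j) = 2 ^ j * 2 ^ j := by rw [← pow_add]; congr 1; omega
    rw [h5]
    generalize 2 ^ j = M at *
    nlinarith
  calc 4 * nC (2 * j) (sz j) ≤ 4 * 2 ^ ((j + 1) * (5 * 2 ^ j)) := Nat.mul_le_mul_left _ h3
    _ = 2 ^ ((j + 1) * (5 * 2 ^ j) + 2) := by rw [pow_add]; ring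
    _ ≤ _ := Nat.pow_le_pow_right (by norm_num) h4

end HRD

open Classical in
/-- Task HRD -/
theorem few_easy (Φ : Circuit → Prop) (A : Oracle) {j : ℕ} (hj : 8 ≤ j) :
    ((univ.filter (fun T : Fin (2 ^ (2 * j)) → Bool => inst j T ∈ MinSize Φ A)).card : ℝ) ≤
      (1 / 4 : ℝ) * 2 ^ 2 ^ (2 * j) := by
  obtain ⟨F, hF1, hF2⟩ := exists_circuits (2 * j) (sz j)
  have hsub : univ.filter (fun T : Fin (2 ^ (2 * j)) → Bool => inst j T ∈ MinSize Φ A) ⊆
      F.image (fun C (i : Fin (2 ^ (2 * j))) => (table (2 * j) (C.eval A)).getD i.1 false) := by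
    intro T hT
    rw [mem_filter] at hT
    obtain ⟨n, s, C, -, hs, hy⟩ := hT.2
    obtain ⟨h1, h2⟩ := HRD.pairBits_inj hy
    have h3 : sz j = s := by simpa using congrArg List.length h2
    have h4 : 2 ^ (2 * j) = 2 ^ n := by
      have := congrArg List.length h1
      rwa [List.length_ofFn, table, List.length_map, length_cube] at this
    have h5 : 2 * j = n := Nat.pow_right_injective (le_refl 2) h4
    subst h5
    obtain ⟨C', hC', -, he⟩ := hF2 C (by rw [h3]; exact hs)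
    refine mem_image.2 ⟨C', hC', ?_⟩
    have h6 : table (2 * j) (C'.eval A) = List.ofFn T := by
      rw [h1]
      unfold table
      apply List.map_congr_left
      intro x hx
      exact he A x (length_cube_mem _ x hx)
    funext i
    rw [h6, List.getD_eq_getElem _ _ (by rw [List.length_ofFn]; exact i.2), List.getElem_ofFn]
  have h1 : 4 * (univ.filter (fun T : Fin (2 ^ (2 * j)) → Bool =>
      inst j T ∈ MinSize Φ A)).card ≤ 2 ^ 2 ^ (2 * j) := by
    refine le_trans ?_ (HRD.nC_le hj)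
    exact Nat.mul_le_mul_left _ ((card_le_card hsub).trans (card_image_le.trans hF1))
  have h2 : (4 : ℝ) * ((univ.filter (fun T : Fin (2 ^ (2 * j)) → Bool =>
      inst j T ∈ MinSize Φ A)).card : ℝ) ≤ 2 ^ 2 ^ (2 * j) := by exact_mod_cast h1
  linarith

end Pool.Agent.H943R6.MC
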