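import Pool.Agent.H943R6.MC.Base
import Pool.Agent.H943R6.MC.PLT
import Pool.Agent.H943R6.MC.HRD

/-! Task EVM (helper746): the good oracles are in the event. -/

namespace Pool.Agent.H943R6.MC

open Pool.Agent.NPC Pool.Agent.H620R2.Gauge Pool.Agent.H622R2.Ckt Finset H568R2

theorem evM_of_easy (Φ : Circuit → Prop) (hΦ : ∀ u n, Φ (askC u n)) (θ : Par) :
    ∃ Q : Polynomial ℕ, ∀ A ∈ EasyM Φ θ, ∀ j, 8 ≤ j → ∀ (N : ℕ)
      (hN : 2 ^ (2 ^ j + 2 * j + 1) ≤ N), 2 ^ (Q.eval (2 ^ j) + 1) ≤ N →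
      EvM θ N j hN (pre N A) := by
  classical
  obtain ⟨qb, hqb⟩ := Alg.out_local θ.M
  refine ⟨qb.comp (Par.P3 θ), ?_⟩
  rintro A ⟨V, h, hM, hh, hx⟩ j hj N hN hN2
  rw [Polynomial.eval_comp] at hN2
  have hout : ∀ y : List Bool, y.length ≤ (Par.P3 θ).eval (2 ^ j) →
      θ.M.out (orc N (pre N A)) y = some (V y) := by
    intro y hy
    obtain ⟨Q, _, hQl, hQA⟩ := hqb A y
    rw [← hM y]
    apply hQA
    intro q hq
    apply orc_pre
    have h2 := idx_lt q
    have h3 : q.length ≤ qb.eval ((Par.P3 θ).eval (2 ^ j)) := (hQl q hq).trans (eval_mono _ hy)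
    have h4 : 2 ^ (q.length + 1) ≤ 2 ^ (qb.eval ((Par.P3 θ).eval (2 ^ j)) + 1) :=
      Nat.pow_le_pow_right (by norm_num) (by omega)
    omega
  have hlen1 := len_le j
  have hlen2 : (h (len j)).length ≤ (Par.P1 θ).eval (2 ^ j) := by
    unfold Par.P1
    rw [Polynomial.eval_comp]
    exact (hh _).trans (eval_mono _ hlen1)
  have hlen3 : 2 * len j + 1 + (h (len j)).length ≤
      (2 * lenP + 1 + Par.P1 θ).eval (2 ^ j) := by
    have : (2 * lenP + 1 + Par.P1 θ).eval (2 ^ j) =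
        2 * lenP.eval (2 ^ j) + 1 + (Par.P1 θ).eval (2 ^ j) := by simp
    rw [this]
    omega
  have hP3 : (Par.P3 θ).eval (2 ^ j) =
      2 * θ.p.eval ((2 * lenP + 1 + Par.P1 θ).eval (2 ^ j)) + 1 +
        (2 * lenP + 1 + Par.P1 θ).eval (2 ^ j) := by
    simp [Par.P3, Polynomial.eval_comp]
  have key : ∀ T : Fin (2 ^ (2 * j)) → Bool,
      (AccE θ N j (h (len j)) T (pre N A) ↔ inst j T ∉ MinSize Φ A) := by
    intro T
    have hl := length_inst j T
    have h1 := hx (inst j T)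
    rw [hl] at h1
    have h2 : (pairBits (inst j T) (h (len j))).length = 2 * len j + 1 + (h (len j)).length := by
      rw [Pool.Agent.H620R2.Gauge.length_pairBits, hl]
    rw [h2] at h1
    have h3 : (inst j T ∉ MinSize Φ A) ↔ inst j T ∈ (MinSize Φ A)ᶜ := Iff.rfl
    rw [h3, h1]
    unfold AccE
    apply exists_congr
    intro w
    apply and_congr_right
    intro hw
    rw [hout _ ?_]
    · simp
    · rw [Pool.Agent.H620R2.Gauge.length_pairBits, h2, hP3]
      have h4 := hw.trans (eval_mono θ.p hlen3)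
      omega
  refine ⟨(h (len j)).length, hh _, h (len j), rfl, ?_, ?_⟩
  · intro s _ hacc
    exact (key _).1 hacc (planted Φ hΦ A hN s)
  · refine ⟨univ.filter (fun T => ¬ inst j T ∈ MinSize Φ A), ?_, ?_⟩
    · intro T hT
      exact (key T).2 (mem_filter.1 hT).2
    · have h1 := few_easy Φ A hj
      have h2 := card_filter_add_card_filter_not (s := (univ : Finset (Fin (2 ^ (2 * j)) → Bool)))
        (fun T => inst j T ∈ MinSize Φ A)
      have h3 : (univ : Finset (Fin (2 ^ (2 * j)) → Bool)).card = 2 ^ 2 ^ (2 * j) := by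
        simp
      rw [h3] at h2
      have h4 : (((univ.filter (fun T : Fin (2 ^ (2 * j)) → Bool =>
          inst j T ∈ MinSize Φ A)).card : ℝ)) + ((univ.filter (fun T : Fin (2 ^ (2 * j)) → Bool =>
          ¬ inst j T ∈ MinSize Φ A)).card : ℝ) = 2 ^ 2 ^ (2 * j) := by
        exact_mod_cast h2
      linarith

end Pool.Agent.H943R6.MC
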