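import Pool.Agent.H943R6.MC.Base

/-!
# Task NPF: formulas (helper944)
-/

namespace Pool.Agent.H943R6.MC

open Pool.Agent.NPC Pool.Agent.H620R2.Gauge Pool.Agent.H622R2.Ckt Finset H568R2

namespace NPF

theorem wires_nrm (n k : ℕ) (g : Gate) :
    gateWires (CNT.nrmG n k g) = (gateWires g).map (CNT.nrmW n k) := by
  cases g <;> rfl

theorem filterMap_nrm (n k : ℕ) : ∀ l : List Wire,
    (l.map (CNT.nrmW n k)).filterMap wireGate = (l.filterMap wireGate).filter (fun j => decide (j < k))
  | [] => rfl
  | w :: l => by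
    have ih := filterMap_nrm n k l
    rw [List.map_cons, List.filterMap_cons, List.filterMap_cons, ih]
    generalize (l.filterMap wireGate) = m
    cases w with
    | inp i =>
      by_cases h : i < n
      · simp [CNT.nrmW, wireGate, h]
      · simp [CNT.nrmW, wireGate, h]
    | cst b => simp [CNT.nrmW, wireGate]
    | gate j =>
      by_cases h : j < k
      · simp [CNT.nrmW, wireGate, h]
      · simp [CNT.nrmW, wireGate, h]

/-- the gate numbers of a coded wire -/
def gw : CW → List ℕ
  | .inl _ => []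
  | .inr (.inl _) => []
  | .inr (.inr j) => [j]

/-- the coded wires of a coded gate -/
def gl : CG → List CW
  | .inl p => [p.1, p.2]
  | .inr (.inl p) => [p.1, p.2]
  | .inr (.inr (.inl r)) => [r]
  | .inr (.inr (.inr l)) => l

/-- the gate numbers of a coded circuit -/
def nums (c : List CG × CW) : List ℕ := (c.1.flatMap gl ++ [c.2]).flatMap gw

theorem poly_gw : Poly gw := by
  refine (Poly.sumCases (α := CW) (o := fun w => w) (g := fun _ (_ : ℕ) => ([] : List ℕ))
    (h := fun _ (w : Bool ⊕ ℕ) => gw (.inr w)) Poly.id (NPC.Poly.const _) ?_).congr fun w => ?_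
  · refine ((Poly.sumCases (α := CW × (Bool ⊕ ℕ)) (o := fun p => p.2) (g := fun _ (_ : Bool) => ([] : List ℕ))
      (h := fun _ (j : ℕ) => [j]) (Poly.snd Poly.id) (NPC.Poly.const _)
      (Poly.cons (Poly.snd Poly.id) (NPC.Poly.const _)))).congr fun p => ?_
    obtain ⟨a, b | j⟩ := p <;> rfl
  · obtain i | b | j := w <;> rfl

theorem poly_gl : Poly gl := by
  have h1 : Poly (fun p : CG × (CW × CW) => [p.2.1, p.2.2]) :=
    Poly.cons (Poly.fst (Poly.snd Poly.id)) (Poly.cons (Poly.snd (Poly.snd Poly.id)) (NPC.Poly.const _))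
  refine (Poly.sumCases (α := CG) (o := fun w => w) (g := fun _ (p : CW × CW) => [p.1, p.2])
    (h := fun _ (w : (CW × CW) ⊕ CW ⊕ List CW) => gl (.inr w)) Poly.id h1 ?_).congr fun w => ?_
  · refine (Poly.sumCases (α := CG × ((CW × CW) ⊕ CW ⊕ List CW)) (o := fun p => p.2)
      (g := fun _ (p : CW × CW) => [p.1, p.2])
      (h := fun _ (w : CW ⊕ List CW) => gl (.inr (.inr w))) (Poly.snd Poly.id)
      (Poly.cons (Poly.fst (Poly.snd Poly.id)) (Poly.cons (Poly.snd (Poly.snd Poly.id)) (NPC.Poly.const _)))
      ?_).congr fun p => ?_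
    · refine (Poly.sumCases (α := (CG × ((CW × CW) ⊕ CW ⊕ List CW)) × (CW ⊕ List CW)) (o := fun p => p.2)
        (g := fun _ (p : CW) => [p]) (h := fun _ (l : List CW) => l) (Poly.snd Poly.id)
        (Poly.cons (Poly.snd Poly.id) (NPC.Poly.const _)) (Poly.snd Poly.id)).congr fun p => ?_
      obtain ⟨a, r | l⟩ := p <;> rfl
    · obtain ⟨a, q | q⟩ := p <;> rfl
  · obtain p | w := w <;> rfl

theorem poly_nums : Poly nums := by
  unfold nums
  exact Poly.flatMap (F := fun (_ : List CG × CW) w => gw w)
    (Poly.append (Poly.flatMap (F := fun (_ : List CG × CW) g => gl g) (Poly.fst Poly.id)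
      (poly_gl.comp (Poly.snd Poly.id))) (Poly.cons (Poly.snd Poly.id) (NPC.Poly.const _)))
    (poly_gw.comp (Poly.snd Poly.id))

theorem gw_eq (w : CW) : gw w = [toW w].filterMap wireGate := by
  obtain i | b | j := w <;> rfl

theorem flatMap_gw : ∀ l : List CW, l.flatMap gw = (l.map toW).filterMap wireGate
  | [] => rfl
  | w :: l => by
    rw [List.flatMap_cons, List.map_cons, flatMap_gw l, gw_eq, ← List.filterMap_append]
    rfl

theorem gl_eq (g : CG) : (gl g).map toW = gateWires (toG g) := by
  obtain p | p | r | l := g <;> rfl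

theorem flatMap_gl : ∀ l : List CG, (l.flatMap gl).map toW = (l.map toG).flatMap gateWires
  | [] => rfl
  | g :: l => by
    rw [List.flatMap_cons, List.map_append, flatMap_gl l, gl_eq, List.map_cons, List.flatMap_cons]

theorem nums_eq (c : List CG × CW) :
    nums c = (((toC c).gates.flatMap gateWires ++ [(toC c).out]).filterMap wireGate) := by
  unfold nums toC
  rw [flatMap_gw, List.map_append, flatMap_gl]
  rfl

/-- the test for lists without repetitions -/
def nd (l : List ℕ) : Bool :=
  l.zipIdx.all fun p => l.zipIdx.all fun q => !(decide (p.1 = q.1)) || decide (p.2 = q.2)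

theorem nd_iff (l : List ℕ) : nd l = true ↔ l.Nodup := by
  unfold nd
  rw [List.all_eq_true]
  constructor
  · intro h
    rw [List.nodup_iff_getElem?_ne_getElem?]
    intro i j hij hj e
    have h1 : (l[j], i) ∈ l.zipIdx := by
      rw [List.mem_zipIdx_iff_getElem?, e]
      simp
    have h2 : (l[j], j) ∈ l.zipIdx := by
      rw [List.mem_zipIdx_iff_getElem?]
      simp
    have h3 := h _ h1
    rw [List.all_eq_true] at h3
    have h4 := h3 _ h2
    simp at h4
    omega
  · rintro h ⟨a, i⟩ hp
    rw [List.all_eq_true]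
    rintro ⟨b, j⟩ hq
    rw [List.mem_zipIdx_iff_getElem?] at hp hq
    simp only [Bool.or_eq_true, Bool.not_eq_true', decide_eq_false_iff_not, decide_eq_true_eq]
    by_contra hc
    rw [not_or, not_not] at hc
    obtain ⟨h1, h2⟩ := hc
    rw [List.nodup_iff_getElem?_ne_getElem?] at h
    rcases lt_or_gt_of_ne h2 with h3 | h3
    · refine h i j h3 ?_ ?_
      · by_contra hc
        rw [List.getElem?_eq_none (by simpa using hc)] at hq
        exact absurd hq (by simp)
      · simp only at hp hq
        rw [hp, hq, h1]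
    · refine h j i h3 ?_ ?_
      · by_contra hc
        rw [List.getElem?_eq_none (by simpa using hc)] at hp
        exact absurd hp (by simp)
      · simp only at hp hq
        rw [hp, hq, h1]

theorem poly_nd : Poly nd := by
  unfold nd
  refine Poly.all (p := fun (l : List ℕ) (p : ℕ × ℕ) =>
    l.zipIdx.all fun q => !(decide (p.1 = q.1)) || decide (p.2 = q.2)) (Poly.zipIdx Poly.id) ?_
  refine Poly.all (p := fun (x : List ℕ × (ℕ × ℕ)) (q : ℕ × ℕ) =>
    !(decide (x.2.1 = q.1)) || decide (x.2.2 = q.2)) (Poly.zipIdx (Poly.fst Poly.id)) ?_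
  exact Poly.or (Poly.not (Poly.decide_eq (Poly.fst (Poly.snd (Poly.fst Poly.id)))
    (Poly.fst (Poly.snd Poly.id))))
    (Poly.decide_eq (Poly.snd (Poly.snd (Poly.fst Poly.id))) (Poly.snd (Poly.snd Poly.id)))

end NPF

theorem isFormula_nrm (n k : ℕ) (C : Circuit) (h : IsFormula C) : IsFormula (CNT.nrm n k C) := by
  unfold IsFormula at h ⊢
  have e : (CNT.nrm n k C).gates.flatMap gateWires ++ [(CNT.nrm n k C).out] =
      (C.gates.flatMap gateWires ++ [C.out]).map (CNT.nrmW n k) := by
    unfold CNT.nrm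
    simp only [List.map_append, List.map_cons, List.map_nil]
    congr 1
    generalize C.gates = gs
    induction gs with
    | nil => rfl
    | cons g gs ih =>
      rw [List.map_cons, List.flatMap_cons, List.flatMap_cons, List.map_append, ih, NPF.wires_nrm]
  rw [e, NPF.filterMap_nrm]
  exact h.filter _

theorem exists_test : ∃ t : List CG × CW → Bool, Poly t ∧ ∀ c, t c = true ↔ IsFormula (toC c) := by
  refine ⟨fun c => NPF.nd (NPF.nums c), NPF.poly_nd.comp NPF.poly_nums, fun c => ?_⟩
  rw [NPF.nd_iff, NPF.nums_eq]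
  rfl

end Pool.Agent.H943R6.MC
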