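import Pool.Agent.H943R6.MC.Base

/-!
# Task NPQ (helper411): polynomial time of the gate checks
-/

namespace Pool.Agent.H943R6.MC

open Pool.Agent.NPC Pool.Agent.H620R2.Gauge Pool.Agent.H622R2.Ckt Finset H568R2

namespace NPQ

theorem take_key {β : Type} : ∀ (l : List β) (n k : ℕ),
    ((l.zipIdx k).filter (fun p => decide (p.2 < k + n))).map Prod.fst = l.take n
  | [], n, k => by simp
  | b :: l, 0, k => by
    have ih := take_key l 0 (k + 1)
    rw [List.zipIdx_cons, List.filter_cons_of_neg (by simp), List.take_zero]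
    rw [List.take_zero] at ih
    rw [List.map_eq_nil_iff, List.filter_eq_nil_iff] at ih ⊢
    intro p hp
    have h1 := List.mem_zipIdx hp
    simp only [decide_eq_true_eq]
    omega
  | b :: l, n + 1, k => by
    have ih := take_key l n (k + 1)
    rw [List.zipIdx_cons, List.filter_cons_of_pos (by simp), List.map_cons, List.take_succ_cons]
    congr 1
    rw [← ih]
    congr 2
    funext p
    congr 1
    rw [eq_iff_iff]
    omega

theorem take {α β : Type} [TEnc α] [TEnc β] {l : α → List β} {n : α → ℕ} (hl : Poly l)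
    (hn : Poly n) : Poly (fun a => (l a).take (n a)) := by
  refine (NPC.Poly.map (F := fun (_ : α) (p : β × ℕ) => p.1)
    (Poly.filter (p := fun a (p : β × ℕ) => decide (p.2 < n a)) (Poly.zipIdx hl)
      (Poly.decide_lt (Poly.snd (Poly.snd Poly.id)) (hn.comp (Poly.fst Poly.id))))
    (Poly.fst (Poly.snd Poly.id))).congr fun a => ?_
  have h := take_key (l a) (n a) 0
  simp only [Nat.zero_add] at h
  exact h

theorem sumElim {α β γ δ : Type} [TEnc α] [TEnc β] [TEnc γ] [TEnc δ] {o : α → β ⊕ γ}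
    {g : α → β → δ} {h : α → γ → δ} (ho : Poly o)
    (hg : Poly (fun p : α × β => g p.1 p.2)) (hh : Poly (fun p : α × γ => h p.1 p.2)) :
    Poly (fun a => Sum.elim (g a) (h a) (o a)) :=
  (Poly.sumCases ho hg hh).congr fun a => by cases o a <;> rfl

end NPQ

theorem poly_val : Poly (fun p : CW × List Bool × List Bool =>
    (toW p.1).val p.2.1 p.2.2) := by
  refine (NPQ.sumElim (o := fun p : CW × List Bool × List Bool => p.1)
    (g := fun p i => p.2.1.getD i false)
    (h := fun p c => Sum.elim (fun b : Bool => b) (fun j : ℕ => p.2.2.getD j false) c)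
    (Poly.fst Poly.id)
    (Poly.getD (Poly.fst (Poly.snd (Poly.fst Poly.id))) (Poly.snd Poly.id) (NPC.Poly.const false))
    (NPQ.sumElim (o := fun p : (CW × List Bool × List Bool) × (Bool ⊕ ℕ) => p.2)
      (g := fun _ (b : Bool) => b) (h := fun p (j : ℕ) => p.1.2.2.getD j false)
      (Poly.snd Poly.id) (Poly.snd Poly.id)
      (Poly.getD (Poly.snd (Poly.snd (Poly.fst (Poly.fst Poly.id)))) (Poly.snd Poly.id)
        (NPC.Poly.const false)))).congr fun a => ?_
  obtain ⟨w, x, v⟩ := a
  rcases w with i | b | j <;> rfl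

namespace NPQ

/-- the value of a wire with parameters -/
theorem val' {α : Type} [TEnc α] {w : α → CW} {x v : α → List Bool} (hw : Poly w) (hx : Poly x)
    (hv : Poly v) : Poly (fun a => (toW (w a)).val (x a) (v a)) :=
  Poly.comp poly_val (Poly.pair hw (Poly.pair hx hv))

abbrev S3 : Type := CG × ℕ × List Bool × List Bool

theorem poly_qg : Poly (fun p : S3 => qg p.2.2.1 p.2.2.2 p.2.1 p.1) := by
  have h4 : Poly (fun p : S3 × List CW =>
      [p.2.map (fun r => (toW r).val p.1.2.2.1 (p.1.2.2.2.take p.1.2.1))]) := by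
    refine Poly.cons ?_ (NPC.Poly.const [])
    refine NPC.Poly.map (F := fun (p : S3 × List CW) r =>
      (toW r).val p.1.2.2.1 (p.1.2.2.2.take p.1.2.1)) (Poly.snd Poly.id) ?_
    have e : Poly (fun p : (S3 × List CW) × CW => p.1.1) := Poly.fst (Poly.fst Poly.id)
    exact val' (Poly.snd Poly.id) (Poly.fst (Poly.snd (Poly.snd e)))
      (take (Poly.snd (Poly.snd (Poly.snd e))) (Poly.fst (Poly.snd e)))
  have h3 : Poly (fun p : S3 × (CW ⊕ List CW) => Sum.elim (fun _ => ([] : List (List Bool)))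
      (fun l => [l.map (fun r => (toW r).val p.1.2.2.1 (p.1.2.2.2.take p.1.2.1))]) p.2) :=
    sumElim (o := fun p : S3 × (CW ⊕ List CW) => p.2) (g := fun _ _ => ([] : List (List Bool)))
      (h := fun p l => [l.map (fun r => (toW r).val p.1.2.2.1 (p.1.2.2.2.take p.1.2.1))])
      (Poly.snd Poly.id) (NPC.Poly.const _)
      (Poly.comp h4 (Poly.pair (Poly.fst (Poly.fst Poly.id)) (Poly.snd Poly.id)))
  have h2 : Poly (fun p : S3 × ((CW × CW) ⊕ CW ⊕ List CW) =>
      Sum.elim (fun _ => ([] : List (List Bool))) (fun c => Sum.elim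
        (fun _ => ([] : List (List Bool)))
        (fun l => [l.map (fun r => (toW r).val p.1.2.2.1 (p.1.2.2.2.take p.1.2.1))]) c) p.2) :=
    sumElim (o := fun p : S3 × ((CW × CW) ⊕ CW ⊕ List CW) => p.2)
      (g := fun _ _ => ([] : List (List Bool)))
      (h := fun p c => Sum.elim (fun _ => ([] : List (List Bool)))
        (fun l => [l.map (fun r => (toW r).val p.1.2.2.1 (p.1.2.2.2.take p.1.2.1))]) c)
      (Poly.snd Poly.id) (NPC.Poly.const _)
      (Poly.comp h3 (Poly.pair (Poly.fst (Poly.fst Poly.id)) (Poly.snd Poly.id)))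
  refine (sumElim (o := fun p : S3 => p.1) (g := fun _ _ => ([] : List (List Bool)))
    (h := fun p c => Sum.elim (fun _ => ([] : List (List Bool))) (fun c => Sum.elim
        (fun _ => ([] : List (List Bool)))
        (fun l => [l.map (fun r => (toW r).val p.2.2.1 (p.2.2.2.take p.2.1))]) c) c)
    (Poly.fst Poly.id) (NPC.Poly.const _) h2).congr fun a => ?_
  obtain ⟨g, i, x, v⟩ := a
  rcases g with p | p | r | l <;> rfl

theorem poly_cg : Poly (fun p : CG × ℕ × List Bool => cg p.2.2 p.2.1 p.1) := by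
  have h4 : Poly (fun p : (CG × ℕ × List Bool) => [p.2.2.getD p.2.1 false]) :=
    Poly.cons (Poly.getD (Poly.snd (Poly.snd Poly.id))
        (Poly.fst (Poly.snd Poly.id)) (NPC.Poly.const false)) (NPC.Poly.const [])
  have h3 : Poly (fun p : (CG × ℕ × List Bool) × (CW ⊕ List CW) =>
      Sum.elim (fun _ => ([] : List Bool)) (fun _ => [p.1.2.2.getD p.1.2.1 false]) p.2) :=
    sumElim (o := fun p : (CG × ℕ × List Bool) × (CW ⊕ List CW) => p.2)
      (g := fun _ _ => ([] : List Bool)) (h := fun p _ => [p.1.2.2.getD p.1.2.1 false])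
      (Poly.snd Poly.id) (NPC.Poly.const _)
      (Poly.comp h4 (Poly.fst (Poly.fst Poly.id)))
  have h2 : Poly (fun p : (CG × ℕ × List Bool) × ((CW × CW) ⊕ CW ⊕ List CW) =>
      Sum.elim (fun _ => ([] : List Bool)) (fun c => Sum.elim (fun _ => ([] : List Bool))
        (fun _ => [p.1.2.2.getD p.1.2.1 false]) c) p.2) :=
    sumElim (o := fun p : (CG × ℕ × List Bool) × ((CW × CW) ⊕ CW ⊕ List CW) => p.2)
      (g := fun _ _ => ([] : List Bool))
      (h := fun p c => Sum.elim (fun _ => ([] : List Bool))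
        (fun _ => [p.1.2.2.getD p.1.2.1 false]) c)
      (Poly.snd Poly.id) (NPC.Poly.const _)
      (Poly.comp h3 (Poly.pair (Poly.fst (Poly.fst Poly.id)) (Poly.snd Poly.id)))
  refine (sumElim (o := fun p : CG × ℕ × List Bool => p.1)
    (g := fun _ _ => ([] : List Bool))
    (h := fun p c => Sum.elim (fun _ => ([] : List Bool)) (fun c => Sum.elim
      (fun _ => ([] : List Bool)) (fun _ => [p.2.2.getD p.2.1 false]) c) c)
    (Poly.fst Poly.id) (NPC.Poly.const _) h2).congr fun a => ?_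
  obtain ⟨g, i, v⟩ := a
  rcases g with p | p | r | l <;> rfl

theorem beq' {α : Type} [TEnc α] {b c : α → Bool} (hb : Poly b) (hc : Poly c) :
    Poly (fun a => b a == c a) :=
  (Poly.not (Poly.xor hb hc)).congr fun a => by cases b a <;> cases c a <;> rfl

theorem poly_okg : Poly (fun p : S3 => okg p.2.2.1 p.2.2.2 p.2.1 p.1) := by
  have h4 : Poly (fun p : S3 × CW => p.1.2.2.2.getD p.1.2.1 false ==
          !((toW p.2).val p.1.2.2.1 (p.1.2.2.2.take p.1.2.1))) := by
    have e : Poly (fun p : S3 × CW => p.1) := Poly.fst Poly.id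
    exact beq' (Poly.getD (Poly.snd (Poly.snd (Poly.snd e))) (Poly.fst (Poly.snd e))
        (NPC.Poly.const false))
      (Poly.not (val' (Poly.snd Poly.id) (Poly.fst (Poly.snd (Poly.snd e)))
        (take (Poly.snd (Poly.snd (Poly.snd e))) (Poly.fst (Poly.snd e)))))
  have h3 : Poly (fun p : S3 × (CW ⊕ List CW) => Sum.elim
      (fun r => p.1.2.2.2.getD p.1.2.1 false ==
          !((toW r).val p.1.2.2.1 (p.1.2.2.2.take p.1.2.1))) (fun _ => true) p.2) :=
    sumElim (o := fun p : S3 × (CW ⊕ List CW) => p.2)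
      (g := fun p r => p.1.2.2.2.getD p.1.2.1 false ==
          !((toW r).val p.1.2.2.1 (p.1.2.2.2.take p.1.2.1)))
      (h := fun _ _ => true) (Poly.snd Poly.id)
      (Poly.comp h4 (Poly.pair (Poly.fst (Poly.fst Poly.id)) (Poly.snd Poly.id)))
      (NPC.Poly.const _)
  have h5 : Poly (fun p : S3 × (CW × CW) => p.1.2.2.2.getD p.1.2.1 false ==
      ((toW p.2.1).val p.1.2.2.1 (p.1.2.2.2.take p.1.2.1) ||
        (toW p.2.2).val p.1.2.2.1 (p.1.2.2.2.take p.1.2.1))) := by
    have e : Poly (fun p : S3 × (CW × CW) => p.1) := Poly.fst Poly.id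
    have ev := take (Poly.snd (Poly.snd (Poly.snd e))) (Poly.fst (Poly.snd e))
    exact beq' (Poly.getD (Poly.snd (Poly.snd (Poly.snd e))) (Poly.fst (Poly.snd e))
        (NPC.Poly.const false))
      (Poly.or (val' (Poly.fst (Poly.snd Poly.id)) (Poly.fst (Poly.snd (Poly.snd e))) ev)
        (val' (Poly.snd (Poly.snd Poly.id)) (Poly.fst (Poly.snd (Poly.snd e))) ev))
  have h1 : Poly (fun p : S3 × (CW × CW) => p.1.2.2.2.getD p.1.2.1 false ==
      ((toW p.2.1).val p.1.2.2.1 (p.1.2.2.2.take p.1.2.1) &&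
        (toW p.2.2).val p.1.2.2.1 (p.1.2.2.2.take p.1.2.1))) := by
    have e : Poly (fun p : S3 × (CW × CW) => p.1) := Poly.fst Poly.id
    have ev := take (Poly.snd (Poly.snd (Poly.snd e))) (Poly.fst (Poly.snd e))
    exact beq' (Poly.getD (Poly.snd (Poly.snd (Poly.snd e))) (Poly.fst (Poly.snd e))
        (NPC.Poly.const false))
      (Poly.and (val' (Poly.fst (Poly.snd Poly.id)) (Poly.fst (Poly.snd (Poly.snd e))) ev)
        (val' (Poly.snd (Poly.snd Poly.id)) (Poly.fst (Poly.snd (Poly.snd e))) ev))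
  have h2 : Poly (fun p : S3 × ((CW × CW) ⊕ CW ⊕ List CW) => Sum.elim
      (fun q => p.1.2.2.2.getD p.1.2.1 false ==
          ((toW q.1).val p.1.2.2.1 (p.1.2.2.2.take p.1.2.1) ||
            (toW q.2).val p.1.2.2.1 (p.1.2.2.2.take p.1.2.1)))
      (fun c => Sum.elim
        (fun r => p.1.2.2.2.getD p.1.2.1 false ==
          !((toW r).val p.1.2.2.1 (p.1.2.2.2.take p.1.2.1))) (fun _ => true) c) p.2) :=
    sumElim (o := fun p : S3 × ((CW × CW) ⊕ CW ⊕ List CW) => p.2)
      (g := fun p q => p.1.2.2.2.getD p.1.2.1 false ==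
          ((toW q.1).val p.1.2.2.1 (p.1.2.2.2.take p.1.2.1) ||
            (toW q.2).val p.1.2.2.1 (p.1.2.2.2.take p.1.2.1)))
      (h := fun p c => Sum.elim
        (fun r => p.1.2.2.2.getD p.1.2.1 false ==
          !((toW r).val p.1.2.2.1 (p.1.2.2.2.take p.1.2.1))) (fun _ => true) c)
      (Poly.snd Poly.id)
      (Poly.comp h5 (Poly.pair (Poly.fst (Poly.fst Poly.id)) (Poly.snd Poly.id)))
      (Poly.comp h3 (Poly.pair (Poly.fst (Poly.fst Poly.id)) (Poly.snd Poly.id)))
  refine (sumElim (o := fun p : S3 => p.1)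
    (g := fun (p : S3) q => p.2.2.2.getD p.2.1 false ==
      ((toW q.1).val p.2.2.1 (p.2.2.2.take p.2.1) &&
        (toW q.2).val p.2.2.1 (p.2.2.2.take p.2.1)))
    (h := fun p c => Sum.elim
      (fun q => p.2.2.2.getD p.2.1 false ==
          ((toW q.1).val p.2.2.1 (p.2.2.2.take p.2.1) ||
            (toW q.2).val p.2.2.1 (p.2.2.2.take p.2.1)))
      (fun c => Sum.elim
        (fun r => p.2.2.2.getD p.2.1 false ==
          !((toW r).val p.2.2.1 (p.2.2.2.take p.2.1))) (fun _ => true) c) c)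
    (Poly.fst Poly.id) h1 h2).congr fun a => ?_
  obtain ⟨g, i, x, v⟩ := a
  rcases g with p | p | r | l <;> rfl

end NPQ

theorem poly_qs : Poly (fun p : List CG × List Bool × List Bool => qs p.1 p.2.1 p.2.2) := by
  refine Poly.flatMap (l := fun p : List CG × List Bool × List Bool => p.1.zipIdx)
    (F := fun p (q : CG × ℕ) => qg p.2.1 p.2.2 q.2 q.1) (Poly.zipIdx (Poly.fst Poly.id)) ?_
  exact Poly.comp NPQ.poly_qg (Poly.pair (Poly.fst (Poly.snd Poly.id))
    (Poly.pair (Poly.snd (Poly.snd Poly.id)) (Poly.pair (Poly.fst (Poly.snd (Poly.fst Poly.id)))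
      (Poly.snd (Poly.snd (Poly.fst Poly.id))))))

theorem poly_cs : Poly (fun p : List CG × List Bool => cs p.1 p.2) := by
  refine Poly.flatMap (l := fun p : List CG × List Bool => p.1.zipIdx)
    (F := fun p (q : CG × ℕ) => cg p.2 q.2 q.1) (Poly.zipIdx (Poly.fst Poly.id)) ?_
  exact Poly.comp NPQ.poly_cg (Poly.pair (Poly.fst (Poly.snd Poly.id))
    (Poly.pair (Poly.snd (Poly.snd Poly.id)) (Poly.snd (Poly.fst Poly.id))))

theorem poly_oks : Poly (fun p : List CG × List Bool × List Bool => oks p.1 p.2.1 p.2.2) := by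
  refine Poly.and (b := fun p : List CG × List Bool × List Bool =>
    p.1.zipIdx.all (fun q => okg p.2.1 p.2.2 q.2 q.1))
    (c := fun p => p.2.2.length == p.1.length) ?_ ?_
  · refine Poly.all (l := fun p : List CG × List Bool × List Bool => p.1.zipIdx)
      (p := fun p (q : CG × ℕ) => okg p.2.1 p.2.2 q.2 q.1) (Poly.zipIdx (Poly.fst Poly.id)) ?_
    exact Poly.comp NPQ.poly_okg (Poly.pair (Poly.fst (Poly.snd Poly.id))
      (Poly.pair (Poly.snd (Poly.snd Poly.id)) (Poly.pair (Poly.fst (Poly.snd (Poly.fst Poly.id)))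
        (Poly.snd (Poly.snd (Poly.fst Poly.id))))))
  · refine (Poly.decide_eq (Poly.length (Poly.snd (Poly.snd Poly.id)))
      (Poly.length (Poly.fst Poly.id))).congr fun a => ?_
    rw [Bool.eq_iff_iff]
    simp

end Pool.Agent.H943R6.MC
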