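import Pool.Agent.H943R6.MC.Base

/-!
# Task NPV (helper663): meaning of the gate checks
-/

namespace Pool.Agent.H943R6.MC

open Pool.Agent.NPC Pool.Agent.H620R2.Gauge Pool.Agent.H622R2.Ckt Finset H568R2

namespace NPV

theorem take_eq (v : List Bool) (b : Bool) {i : ℕ} (h : i < v.length) :
    (v ++ [b]).take i = v.take i := by
  rw [List.take_append_of_le_length h.le]

theorem getD_eq (v : List Bool) (b : Bool) {i : ℕ} (h : i < v.length) :
    (v ++ [b]).getD i false = v.getD i false := by
  simp [List.getD, List.getElem?_append_left h]

theorem qg_eq (x v : List Bool) (b : Bool) {i : ℕ} (h : i < v.length) (g : CG) :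
    qg x (v ++ [b]) i g = qg x v i g := by
  rcases g with p | p | r | l <;> simp [qg, take_eq v b h]

theorem cg_eq (v : List Bool) (b : Bool) {i : ℕ} (h : i < v.length) (g : CG) :
    cg (v ++ [b]) i g = cg v i g := by
  rcases g with p | p | r | l <;> simp only [cg, getD_eq v b h]

theorem okg_eq (x v : List Bool) (b : Bool) {i : ℕ} (h : i < v.length) (g : CG) :
    okg x (v ++ [b]) i g = okg x v i g := by
  rcases g with p | p | r | l <;> simp only [okg, take_eq v b h, getD_eq v b h]

theorem snd_lt {gs : List CG} {p : CG × ℕ} (hp : p ∈ gs.zipIdx) : p.2 < gs.length := by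
  have := List.snd_lt_add_of_mem_zipIdx hp
  simpa using this

theorem qs_append (gs : List CG) (g : CG) (x v : List Bool) (b : Bool)
    (h : v.length = gs.length) :
    qs (gs ++ [g]) x (v ++ [b]) = qs gs x v ++ qg x (v ++ [b]) gs.length g := by
  unfold qs
  rw [List.zipIdx_append, List.flatMap_append]
  congr 1
  · apply List.flatMap_congr
    intro p hp
    exact qg_eq x v b (h ▸ snd_lt hp) p.1
  · simp

theorem cs_append (gs : List CG) (g : CG) (v : List Bool) (b : Bool)
    (h : v.length = gs.length) :
    cs (gs ++ [g]) (v ++ [b]) = cs gs v ++ cg (v ++ [b]) gs.length g := by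
  unfold cs
  rw [List.zipIdx_append, List.flatMap_append]
  congr 1
  · apply List.flatMap_congr
    intro p hp
    exact cg_eq v b (h ▸ snd_lt hp) p.1
  · simp

theorem oks_append (gs : List CG) (g : CG) (x v : List Bool) (b : Bool)
    (h : v.length = gs.length) :
    oks (gs ++ [g]) x (v ++ [b]) = true ↔
      oks gs x v = true ∧ okg x (v ++ [b]) gs.length g = true := by
  unfold oks
  rw [List.zipIdx_append]
  simp only [List.all_append, Bool.and_eq_true, List.all_eq_true, beq_iff_eq,
    List.length_append, h]
  constructor
  · rintro ⟨⟨h1, h2⟩, -⟩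
    refine ⟨⟨fun p hp => ?_, trivial⟩, ?_⟩
    · rw [← okg_eq x v b (h ▸ snd_lt hp) p.1]
      exact h1 p hp
    · have := h2 (g, 0 + gs.length) (by simp)
      simpa using this
  · rintro ⟨⟨h1, -⟩, h2⟩
    refine ⟨⟨fun p hp => ?_, fun p hp => ?_⟩, by simp⟩
    · rw [okg_eq x v b (h ▸ snd_lt hp) p.1]
      exact h1 p hp
    · simp only [List.zipIdx_cons, List.zipIdx_nil, List.mem_singleton] at hp
      subst hp
      simpa using h2

theorem length_eq (A : Oracle) (gs : List CG) (x v : List Bool) :
    ((qs gs x v).map A).length = (cs gs v).length := by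
  unfold qs cs
  rw [List.length_map, List.length_flatMap, List.length_flatMap]
  congr 1
  apply List.map_congr_left
  intro p _
  rcases p with ⟨g, i⟩
  rcases g with p | p | r | l <;> simp [qg, cg]

theorem length_gateVals (A : Oracle) (x : List Bool) (gs : List Gate) :
    (gateVals A x gs).length = gs.length := by
  induction gs using List.reverseRecOn with
  | nil => rfl
  | append_singleton gs g ih =>
    simp only [gateVals, List.foldl_append, List.foldl_cons, List.foldl_nil] at ih ⊢
    simp [ih]

theorem step (A : Oracle) (x v : List Bool) (b : Bool) (n : ℕ) (h : v.length = n) (g : CG) :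
    b = (toG g).val A x v ↔
      okg x (v ++ [b]) n g = true ∧ (qg x (v ++ [b]) n g).map A = cg (v ++ [b]) n g := by
  subst h
  rcases g with p | p | r | l
  · simp [toG, okg, qg, cg, Gate.val]
  · simp [toG, okg, qg, cg, Gate.val]
  · simp [toG, okg, qg, cg, Gate.val]
  · simp only [toG, okg, qg, cg, Gate.val, List.map_map, List.take_left, true_and,
      List.map_cons, List.map_nil, List.cons.injEq, and_true]
    have : (v ++ [b]).getD v.length false = b := by simp [List.getD]
    rw [this]
    constructor
    · intro h; rw [h]; rfl
    · intro h; rw [← h]; rfl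

end NPV

open NPV in
theorem gateVals_iff (A : Oracle) (gs : List CG) (x v : List Bool) :
    v = gateVals A x (gs.map toG) ↔ oks gs x v = true ∧ (qs gs x v).map A = cs gs v := by
  induction gs using List.reverseRecOn generalizing v with
  | nil =>
    simp [gateVals, oks, qs, cs]
  | append_singleton gs g ih =>
    have key : ∀ v' : List Bool, ∀ b : Bool, v'.length = gs.length →
        (v' ++ [b] = gateVals A x ((gs ++ [g]).map toG) ↔
          oks (gs ++ [g]) x (v' ++ [b]) = true ∧
            (qs (gs ++ [g]) x (v' ++ [b])).map A = cs (gs ++ [g]) (v' ++ [b])) := by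
      intro v' b h
      have e1 : gateVals A x ((gs ++ [g]).map toG) =
          gateVals A x (gs.map toG) ++ [(toG g).val A x (gateVals A x (gs.map toG))] := by
        simp [gateVals, List.foldl_append]
      rw [e1, qs_append gs g x v' b h, cs_append gs g v' b h, oks_append gs g x v' b h,
        List.map_append]
      constructor
      · intro h1
        have h2 := List.append_inj' h1 rfl
        have h3 : b = (toG g).val A x v' := by
          have := h2.2
          rw [← h2.1] at this
          simpa using this
        have h4 := (ih v').1 h2.1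
        have h5 := (step A x v' b gs.length h g).1 h3
        exact ⟨⟨h4.1, h5.1⟩, by rw [h4.2, h5.2]⟩
      · rintro ⟨⟨h1, h2⟩, h3⟩
        have h4 := List.append_inj h3 (length_eq A gs x v')
        have h5 := (ih v').2 ⟨h1, h4.1⟩
        have h6 := (step A x v' b gs.length h g).2 ⟨h2, h4.2⟩
        rw [← h5, ← h6]
    constructor
    · intro h
      have hl : v.length = gs.length + 1 := by
        rw [h, length_gateVals]; simp
      have hv : v ≠ [] := by
        intro h0; rw [h0] at hl; simp at hl
      have hs := List.dropLast_append_getLast hv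
      have hl' : v.dropLast.length = gs.length := by simp [hl]
      rw [← hs] at h ⊢
      exact (key _ _ hl').1 h
    · intro h
      have hl : v.length = gs.length + 1 := by
        have := h.1
        simp only [oks, Bool.and_eq_true, beq_iff_eq] at this
        simpa using this.2
      have hv : v ≠ [] := by
        intro h0; rw [h0] at hl; simp at hl
      have hs := List.dropLast_append_getLast hv
      have hl' : v.dropLast.length = gs.length := by simp [hl]
      rw [← hs] at h ⊢
      exact (key _ _ hl').2 h

namespace NPV

theorem toW_surjective : Function.Surjective toW := by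
  intro w
  rcases w with i | b | j
  · exact ⟨.inl i, rfl⟩
  · exact ⟨.inr (.inl b), rfl⟩
  · exact ⟨.inr (.inr j), rfl⟩

theorem toG_surjective : Function.Surjective toG := by
  intro g
  rcases g with ⟨r, s⟩ | ⟨r, s⟩ | r | l
  · obtain ⟨r', rfl⟩ := toW_surjective r
    obtain ⟨s', rfl⟩ := toW_surjective s
    exact ⟨.inl (r', s'), rfl⟩
  · obtain ⟨r', rfl⟩ := toW_surjective r
    obtain ⟨s', rfl⟩ := toW_surjective s
    exact ⟨.inr (.inl (r', s')), rfl⟩
  · obtain ⟨r', rfl⟩ := toW_surjective r
    exact ⟨.inr (.inr (.inl r')), rfl⟩
  · obtain ⟨l', rfl⟩ := toW_surjective.list_map l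
    exact ⟨.inr (.inr (.inr l')), rfl⟩

end NPV

theorem toC_surjective : Function.Surjective toC := by
  intro C
  obtain ⟨gs, hgs⟩ := NPV.toG_surjective.list_map C.gates
  obtain ⟨o, ho⟩ := NPV.toW_surjective C.out
  exact ⟨(gs, o), by cases C; simp_all [toC]⟩

end Pool.Agent.H943R6.MC
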