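import Pool.Agent.H943R6.MC.Base

/-!
# Task NPX: the cube from a table (helper944)
-/

namespace Pool.Agent.H943R6.MC

open Pool.Agent.NPC Pool.Agent.H620R2.Gauge Pool.Agent.H622R2.Ckt Finset H568R2

namespace NPX

/-- the doubling step -/
def step (T : List Bool) (X : List (List Bool)) (_ : Bool) : List (List Bool) :=
  if X.length < T.length then X.map (List.cons false) ++ X.map (List.cons true) else X

theorem cubeOf_fold (T : List Bool) : cubeOf T = T.foldl (step T) [[]] := rfl

theorem step_cube (T : List Bool) (k : ℕ) (b : Bool) :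
    step T (cube k) b = if 2 ^ k < T.length then cube (k + 1) else cube k := by
  unfold step
  rw [length_cube]
  rfl

theorem fold_cube (T : List Bool) : ∀ (S : List Bool) (k : ℕ),
    ∃ m, k ≤ m ∧ m ≤ k + S.length ∧ S.foldl (step T) (cube k) = cube m
  | [], k => ⟨k, le_rfl, by simp, rfl⟩
  | b :: S, k => by
    rw [List.foldl_cons, step_cube]
    split_ifs with h
    · obtain ⟨m, h1, h2, h3⟩ := fold_cube T S (k + 1)
      exact ⟨m, by omega, by simp only [List.length_cons]; omega, h3⟩
    · obtain ⟨m, h1, h2, h3⟩ := fold_cube T S k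
      exact ⟨m, by omega, by simp only [List.length_cons]; omega, h3⟩

theorem fold_eq {n : ℕ} (T : List Bool) (h : T.length = 2 ^ n) : ∀ (S : List Bool) (k : ℕ), k ≤ n →
    S.foldl (step T) (cube k) = cube (min (k + S.length) n)
  | [], k, hk => by
    simp only [List.foldl_nil, List.length_nil, add_zero]
    rw [min_eq_left hk]
  | b :: S, k, hk => by
    rw [List.foldl_cons, step_cube, h]
    by_cases hkn : k < n
    · rw [if_pos (Nat.pow_lt_pow_right (by norm_num) hkn), fold_eq T h S (k + 1) (by omega)]
      congr 1
      simp only [List.length_cons]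
      omega
    · have e : k = n := by omega
      subst e
      rw [if_neg (lt_irrefl _), fold_eq T h S k le_rfl]
      congr 1
      simp only [List.length_cons]
      omega

theorem len_step (T : List Bool) (X : List (List Bool)) (b : Bool) (hX : X.length ≤ 2 * T.length + 1) :
    (step T X b).length ≤ 2 * T.length + 1 := by
  unfold step
  split_ifs with h
  · simp only [List.length_append, List.length_map]
    omega
  · exact hX

theorem mem_step (T : List Bool) (X : List (List Bool)) (b : Bool) (B : ℕ)
    (hX : ∀ x ∈ X, x.length ≤ B) : ∀ x ∈ step T X b, x.length ≤ B + 1 := by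
  unfold step
  split_ifs with h
  · intro x hx
    rw [List.mem_append, List.mem_map, List.mem_map] at hx
    rcases hx with ⟨y, hy, rfl⟩ | ⟨y, hy, rfl⟩ <;> simp [hX y hy]
  · intro x hx
    have := hX x hx
    omega

theorem fold_bounds (T : List Bool) : ∀ (S : List Bool) (X : List (List Bool)) (B : ℕ),
    X.length ≤ 2 * T.length + 1 → (∀ x ∈ X, x.length ≤ B) →
    (S.foldl (step T) X).length ≤ 2 * T.length + 1 ∧
      ∀ x ∈ S.foldl (step T) X, x.length ≤ B + S.length
  | [], X, B, h1, h2 => ⟨h1, by simpa using h2⟩
  | b :: S, X, B, h1, h2 => by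
    rw [List.foldl_cons]
    obtain ⟨h3, h4⟩ := fold_bounds T S (step T X b) (B + 1) (len_step T X b h1) (mem_step T X b B h2)
    refine ⟨h3, fun x hx => ?_⟩
    have := h4 x hx
    simp only [List.length_cons]
    omega

end NPX

theorem poly_cubeOf : Poly cubeOf := by
  refine (Poly.foldl (α := List Bool) (β := Bool) (σ := List (List Bool)) (l := fun T => T)
    (s := fun _ => [[]]) (F := fun T X b => NPX.step T X b) Poly.id (NPC.Poly.const _) ?_
    ((2 * Polynomial.X + 1) * (4 * Polynomial.X + 2) + 1) ?_).congr fun T => rfl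
  · unfold NPX.step
    refine Poly.ite (p := fun p : List Bool × List (List Bool) × Bool => p.2.1.length < p.1.length)
      (Poly.decide_lt (Poly.length (Poly.fst (Poly.snd Poly.id))) (Poly.length (Poly.fst Poly.id))) ?_
      (Poly.fst (Poly.snd Poly.id))
    refine Poly.append ?_ ?_
    · exact NPC.Poly.map (F := fun (_ : List Bool × List (List Bool) × Bool) x => List.cons false x)
        (Poly.fst (Poly.snd Poly.id)) (Poly.cons (NPC.Poly.const _) (Poly.snd Poly.id))
    · exact NPC.Poly.map (F := fun (_ : List Bool × List (List Bool) × Bool) x => List.cons true x)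
        (Poly.fst (Poly.snd Poly.id)) (Poly.cons (NPC.Poly.const _) (Poly.snd Poly.id))
  · intro T k hk
    obtain ⟨h1, h2⟩ := NPX.fold_bounds T (T.take k) [[]] 0 (by simp) (by simp)
    have hT : T.length < Pool.Agent.NPC.sz T := length_lt_sz T
    have h3 := sz_le_length_mul ((T.take k).foldl (fun X b => NPX.step T X b) [[]])
      (4 * T.length + 1) (by
        intro x hx
        have h4 := h2 x hx
        have h5 := sz_listBool_le x
        have h6 : (T.take k).length ≤ T.length := List.length_take_le' k T
        omega)
    refine h3.trans ?_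
    simp only [Polynomial.eval_add, Polynomial.eval_mul, Polynomial.eval_X, Polynomial.eval_ofNat,
      Polynomial.eval_one]
    have h7 : ((T.take k).foldl (fun X b => NPX.step T X b) [[]]).length ≤
        2 * Pool.Agent.NPC.sz T + 1 := h1.trans (by omega)
    have h8 : 4 * T.length + 1 + 1 ≤ 4 * Pool.Agent.NPC.sz T + 2 := by omega
    exact Nat.add_le_add_right (Nat.mul_le_mul h7 h8) 1

theorem cubeOf_eq {n : ℕ} {T : List Bool} (h : T.length = 2 ^ n) : cubeOf T = cube n := by
  have := NPX.fold_eq T h T 0 (Nat.zero_le _)
  have hn : n ≤ T.length := by rw [h]; exact Nat.lt_two_pow_self.le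
  rw [zero_add, min_eq_right hn] at this
  exact this

theorem exists_of_cubeOf {T : List Bool} (h : (cubeOf T).length = T.length) :
    ∃ n, T.length = 2 ^ n ∧ cubeOf T = cube n := by
  obtain ⟨m, _, _, h3⟩ := NPX.fold_cube T T 0
  have h4 : cubeOf T = cube m := h3
  refine ⟨m, ?_, h4⟩
  rw [← h, h4, length_cube]

end Pool.Agent.H943R6.MC
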