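import Pool.Agent.H943R6.MC.NPMa
import Pool.Agent.H943R6.MC.NPX
import Pool.Agent.H943R6.MC.NPQ
import Pool.Agent.H943R6.MC.NPV

/-!
# NPM: the minimum size problem is in NP relative to the oracle (helper398)
-/

namespace Pool.Agent.H943R6.MC

open Pool.Agent.NPC Pool.Agent.H620R2.Gauge Pool.Agent.H622R2.Ckt Finset H568R2

theorem isNP_minSize (Φ : Circuit → Prop) (hnrm : ∀ n k C, Φ C → Φ (CNT.nrm n k C))
    (t : List CG × CW → Bool) (ht : Poly t) (hΦ : ∀ c, t c = true ↔ Φ (toC c)) (A : Oracle) :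
    IsNP A (MinSize Φ A) :=
  isNP_minSize_of ⟨poly_cubeOf, cubeOf_eq, exists_of_cubeOf, poly_qs, poly_cs, poly_oks,
    poly_val, gateVals_iff⟩ Φ hnrm t ht hΦ A

end Pool.Agent.H943R6.MC
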