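import Pool.Agent.H943R6.MC.EVB
import Pool.Agent.H943R6.MC.EVM
import Pool.Agent.H943R6.MC.ASY
import Pool.Agent.H943R6.MC.NPM
import Pool.Agent.H943R6.MC.NPF
import Pool.Agent.H620R2.Gauge.A2
import Pool.Agent.H620R2.GaugeX.NonNullX
import Pool.Agent.H620R2.GaugeR.Seq
import Pool.Agent.H620R2.Gauge.NonNull

/-!
# Assembly: the gauge threshold of the minimum circuit size problem relative to an oracle (helper943)
-/

namespace Pool.Agent.H943R6.MC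

open Pool.Agent.NPC Pool.Agent.H620R2.Gauge Pool.Agent.H622R2.Ckt Finset H568R2

theorem mem_easyM {Φ : Circuit → Prop} {A : Oracle}
    (h : WithAdvice (IsNP A) (MinSize Φ A)ᶜ) : ∃ θ, A ∈ EasyM Φ θ := by
  obtain ⟨L', h, p', ⟨V, p, ⟨M, hM⟩, hL'⟩, hh, hx⟩ := h
  exact ⟨⟨M, p, 1, p'⟩, V, h, hM, hh, fun x => (hx x).trans (hL' _)⟩

theorem nullM (Φ : Circuit → Prop) (hΦ : ∀ u n, Φ (askC u n)) {f : ℕ → ℝ} (hf : Cond f)
    (O : Set Oracle) (hO : ∀ A ∈ O, WithAdvice (IsNP A) (MinSize Φ A)ᶜ) : Null f O := by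
  refine (null_iUnion (f := f) (EasyM Φ) fun θ => ?_).mono fun A hA => ?_
  · intro δ hδ
    obtain ⟨Q, hQ⟩ := evM_of_easy Φ hΦ θ
    obtain ⟨j, hj, N, hN, hb⟩ := asy (Par.P1 θ) (Par.P2 θ) (Q + 3 * Polynomial.X) hf δ hδ
    have hQe : (Q + 3 * Polynomial.X).eval (2 ^ j) = Q.eval (2 ^ j) + 3 * 2 ^ j := by simp
    rw [hQe] at hN
    have hj2 : j < 2 ^ j := Nat.lt_two_pow_self
    have hN1 : 2 ^ (2 ^ j + 2 * j + 1) ≤ N :=
      le_trans (Nat.pow_le_pow_right (by norm_num) (by omega)) hN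
    have hN2 : 2 ^ (Q.eval (2 ^ j) + 1) ≤ N :=
      le_trans (Nat.pow_le_pow_right (by norm_num) (by omega)) hN
    refine cover_of_event (EvM θ N j hN1) (EasyM Φ θ)
      (fun A hA => hQ A hA j hj N hN1 hN2) f δ ?_
    exact (mul_le_mul_of_nonneg_right (evM_bound θ hN1) (by positivity)).trans hb
  · obtain ⟨θ, hθ⟩ := mem_easyM (hO A hA)
    exact Set.mem_iUnion.2 ⟨θ, hθ⟩

/-- exchange `[true]` and `[false]` -/
def flip (z : List Bool) : List Bool :=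
  if z = [true] then [false] else if z = [false] then [true] else z

theorem flip_true {z : List Bool} : flip z = [true] ↔ z = [false] := by
  unfold flip
  split_ifs with h1 h2
  · simp [h1]
  · simp [h2]
  · exact ⟨fun h => absurd h h1, fun h => absurd h h2⟩

theorem flip_false {z : List Bool} : flip z = [false] ↔ z = [true] := by
  unfold flip
  split_ifs with h1 h2
  · simp [h1]
  · simp [h2]
  · exact ⟨fun h => absurd h h2, fun h => absurd h h1⟩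

theorem poly_flip : Poly flip := by
  refine Poly.ite (Poly.decide_eq Poly.id (NPC.Poly.const _)) (NPC.Poly.const _) ?_
  exact Poly.ite (Poly.decide_eq Poly.id (NPC.Poly.const _)) (NPC.Poly.const _) Poly.id

theorem isZPP_compl {A : Oracle} {L : Set (List Bool)} (h : IsZPP A L) : IsZPP A Lᶜ := by
  obtain ⟨V, p, hV, h⟩ := h
  refine ⟨fun y => flip (V y), p, (IsFP.of_poly poly_flip).comp hV, fun x => ⟨fun w hw => ?_, ?_⟩⟩
  · refine ⟨fun h1 => ?_, fun h1 => ?_⟩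
    · exact ((h x).1 w hw).2 (flip_true.1 h1)
    · exact fun hc => hc (((h x).1 w hw).1 (flip_false.1 h1))
  · refine (h x).2.trans (le_of_eq ?_)
    congr 2
    apply Nat.card_congr
    apply Equiv.subtypeEquivRight
    intro w
    rw [flip_true, flip_false]
    exact or_comm

theorem main (Φ : Circuit → Prop) (hΦ : ∀ u n, Φ (askC u n))
    (hNP : ∀ A : Oracle, IsNP A (MinSize Φ A)) (f : ℕ → ℝ) :
    (∀ O : Set Oracle,
      ((∀ A : Oracle, (∀ L, IsPSPACE A L → Reduces L {x | A x = true}) → A ∈ O) ∨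
        (∀ A : Oracle, (∀ L, IsEXP A L ∨ IsPSPACE A L → IsZPP A L) →
          (∃ L, IsZPP A L ∧ ¬ IsP A L) → A ∈ O)) →
      (∀ A ∈ O, WithAdvice (IsNP A) (MinSize Φ A)ᶜ) →
      (Null f O ↔
        ∀ ε : ℝ, 0 < ε → ∃ᶠ N : ℕ in Filter.atTop, f N ≤ 2 ^ (Real.logb 2 N) ^ ε)) ∧
    (Null f {A : Oracle | IsP A (MinSize Φ A)} ↔
      ∀ ε : ℝ, 0 < ε → ∃ᶠ N : ℕ in Filter.atTop, f N ≤ 2 ^ (Real.logb 2 N) ^ ε) ∧
    (Null f {A : Oracle | WithAdvice (IsNP A) (MinSize Φ A)ᶜ} ↔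
      ∀ ε : ℝ, 0 < ε → ∃ᶠ N : ℕ in Filter.atTop, f N ≤ 2 ^ (Real.logb 2 N) ^ ε) ∧
    (Null f {A : Oracle | IsZPP A (MinSize Φ A) ∧ ∃ L, IsNP A L ∧ ¬ IsP A L} ↔
      ∀ ε : ℝ, 0 < ε → ∃ᶠ N : ℕ in Filter.atTop, f N ≤ 2 ^ (Real.logb 2 N) ^ ε) := by
  have key : ∀ O : Set Oracle,
      ((∀ A : Oracle, (∀ L, IsPSPACE A L → Reduces L {x | A x = true}) → A ∈ O) ∨
        (∀ A : Oracle, (∀ L, IsEXP A L ∨ IsPSPACE A L → IsZPP A L) →
          (∃ L, IsZPP A L ∧ ¬ IsP A L) → A ∈ O)) →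
      (∀ A ∈ O, WithAdvice (IsNP A) (MinSize Φ A)ᶜ) →
      (Null f O ↔
        ∀ ε : ℝ, 0 < ε → ∃ᶠ N : ℕ in Filter.atTop, f N ≤ 2 ^ (Real.logb 2 N) ^ ε) := by
    intro O h1 h2
    constructor
    · intro hn
      by_contra hcon
      rcases h1 with h1 | h1
      · push Not at hcon
        obtain ⟨ε, hε, hcon⟩ := hcon
        exact not_null f ε hε (hcon.mono fun N h => h) O h1 hn
      · exact not_nullT (f := f) hcon O h1 hn
    · intro hf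
      exact nullM Φ hΦ hf O h2
  refine ⟨key, key _ (Or.inl ?_) ?_, key _ (Or.inl ?_) ?_, key _ (Or.inr ?_) ?_⟩
  · intro A hA
    exact isP_of_reduces (hA _ (hNP A).isPSPACE)
  · intro A hA
    exact (IsP.compl hA).isNP.withAdvice
  · intro A hA
    exact (IsP.compl (isP_of_reduces (hA _ (hNP A).isPSPACE))).isNP.withAdvice
  · intro A hA
    exact hA
  · rintro A h1 ⟨L, h2, h3⟩
    exact ⟨h1 _ (Or.inr (hNP A).isPSPACE), L, h2.isNP, h3⟩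
  · rintro A ⟨h1, _⟩
    exact (isZPP_compl h1).isNP.withAdvice

theorem isNP_mcsp (A : Oracle) : IsNP A (MCSP A) :=
  isNP_minSize (fun _ => True) (fun _ _ _ _ => trivial) (fun _ => true) (NPC.Poly.const _)
    (fun _ => by simp) A

theorem isNP_mfsp (A : Oracle) : IsNP A (MFSP A) := by
  obtain ⟨t, ht, h⟩ := exists_test
  exact isNP_minSize IsFormula (fun n k C hC => isFormula_nrm n k C hC) t ht h A

theorem main_mcsp (f : ℕ → ℝ) :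
    (∀ O : Set Oracle,
      ((∀ A : Oracle, (∀ L, IsPSPACE A L → Reduces L {x | A x = true}) → A ∈ O) ∨
        (∀ A : Oracle, (∀ L, IsEXP A L ∨ IsPSPACE A L → IsZPP A L) →
          (∃ L, IsZPP A L ∧ ¬ IsP A L) → A ∈ O)) →
      (∀ A ∈ O, WithAdvice (IsNP A) (MCSP A)ᶜ) →
      (Null f O ↔
        ∀ ε : ℝ, 0 < ε → ∃ᶠ N : ℕ in Filter.atTop, f N ≤ 2 ^ (Real.logb 2 N) ^ ε)) ∧
    (Null f {A : Oracle | IsP A (MCSP A)} ↔
      ∀ ε : ℝ, 0 < ε → ∃ᶠ N : ℕ in Filter.atTop, f N ≤ 2 ^ (Real.logb 2 N) ^ ε) ∧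
    (Null f {A : Oracle | WithAdvice (IsNP A) (MCSP A)ᶜ} ↔
      ∀ ε : ℝ, 0 < ε → ∃ᶠ N : ℕ in Filter.atTop, f N ≤ 2 ^ (Real.logb 2 N) ^ ε) ∧
    (Null f {A : Oracle | IsZPP A (MCSP A) ∧ ∃ L, IsNP A L ∧ ¬ IsP A L} ↔
      ∀ ε : ℝ, 0 < ε → ∃ᶠ N : ℕ in Filter.atTop, f N ≤ 2 ^ (Real.logb 2 N) ^ ε) :=
  main (fun _ => True) (fun _ _ => trivial) isNP_mcsp f

theorem main_mfsp (f : ℕ → ℝ) :
    (∀ O : Set Oracle,
      ((∀ A : Oracle, (∀ L, IsPSPACE A L → Reduces L {x | A x = true}) → A ∈ O) ∨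
        (∀ A : Oracle, (∀ L, IsEXP A L ∨ IsPSPACE A L → IsZPP A L) →
          (∃ L, IsZPP A L ∧ ¬ IsP A L) → A ∈ O)) →
      (∀ A ∈ O, WithAdvice (IsNP A) (MFSP A)ᶜ) →
      (Null f O ↔
        ∀ ε : ℝ, 0 < ε → ∃ᶠ N : ℕ in Filter.atTop, f N ≤ 2 ^ (Real.logb 2 N) ^ ε)) ∧
    (Null f {A : Oracle | IsP A (MFSP A)} ↔
      ∀ ε : ℝ, 0 < ε → ∃ᶠ N : ℕ in Filter.atTop, f N ≤ 2 ^ (Real.logb 2 N) ^ ε) ∧
    (Null f {A : Oracle | WithAdvice (IsNP A) (MFSP A)ᶜ} ↔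
      ∀ ε : ℝ, 0 < ε → ∃ᶠ N : ℕ in Filter.atTop, f N ≤ 2 ^ (Real.logb 2 N) ^ ε) ∧
    (Null f {A : Oracle | IsZPP A (MFSP A) ∧ ∃ L, IsNP A L ∧ ¬ IsP A L} ↔
      ∀ ε : ℝ, 0 < ε → ∃ᶠ N : ℕ in Filter.atTop, f N ≤ 2 ^ (Real.logb 2 N) ^ ε) :=
  main IsFormula askC_isFormula isNP_mfsp f

end Pool.Agent.H943R6.MC
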