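import Pool.Agent.H943R6.MC.Base
import Pool.Agent.H620R2.Gauge.A2
import Pool.Agent.H620R2.Gauge2.Defs

/-!
# NPM: the minimum size problem is in NP relative to the oracle (helper398)

The facts of the tasks NPX, NPQ and NPV are hypotheses here (structure `NPM.Inp`).
-/

namespace Pool.Agent.H943R6.MC

open Pool.Agent.NPC Pool.Agent.H620R2.Gauge Pool.Agent.H622R2.Ckt

namespace NPM

/-- the facts of the tasks NPX, NPQ and NPV -/
structure Inp : Prop where
  poly_cubeOf : Poly cubeOf
  cubeOf_eq : ∀ {n : ℕ} {T : List Bool}, T.length = 2 ^ n → cubeOf T = cube n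
  exists_of_cubeOf : ∀ {T : List Bool}, (cubeOf T).length = T.length →
    ∃ n, T.length = 2 ^ n ∧ cubeOf T = cube n
  poly_qs : Poly (fun p : List CG × List Bool × List Bool => qs p.1 p.2.1 p.2.2)
  poly_cs : Poly (fun p : List CG × List Bool => cs p.1 p.2)
  poly_oks : Poly (fun p : List CG × List Bool × List Bool => oks p.1 p.2.1 p.2.2)
  poly_val : Poly (fun p : CW × List Bool × List Bool => (toW p.1).val p.2.1 p.2.2)
  gateVals_iff : ∀ (A : Oracle) (gs : List CG) (x v : List Bool),
    v = gateVals A x (gs.map toG) ↔ oks gs x v = true ∧ (qs gs x v).map A = cs gs v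

/-! ### codes -/

/-- code of a wire -/
def ofW : Wire → CW
  | .inp i => .inl i
  | .cst b => .inr (.inl b)
  | .gate j => .inr (.inr j)

/-- code of a gate -/
def ofG : Gate → CG
  | .and r s => .inl (ofW r, ofW s)
  | .or r s => .inr (.inl (ofW r, ofW s))
  | .not r => .inr (.inr (.inl (ofW r)))
  | .ask l => .inr (.inr (.inr (l.map ofW)))

/-- code of a circuit -/
def ofC (C : Circuit) : List CG × CW := (C.gates.map ofG, ofW C.out)

theorem toW_ofW (r : Wire) : toW (ofW r) = r := by cases r <;> rfl

theorem toG_ofG (g : Gate) : toG (ofG g) = g := by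
  cases g with
  | and r s => simp [ofG, toG, toW_ofW]
  | or r s => simp [ofG, toG, toW_ofW]
  | not r => simp [ofG, toG, toW_ofW]
  | ask l =>
    simp only [ofG, toG, List.map_map, Gate.ask.injEq]
    conv_rhs => rw [← List.map_id l]
    exact List.map_congr_left (fun r _ => toW_ofW r)

theorem toC_ofC (C : Circuit) : toC (ofC C) = C := by
  have h : C.gates.map (toG ∘ ofG) = C.gates := by
    conv_rhs => rw [← List.map_id C.gates]
    exact List.map_congr_left (fun r _ => toG_ofG r)
  unfold toC ofC
  simp only [List.map_map, toW_ofW, h]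

/-- size of a coded gate -/
def szg : CG → ℕ
  | .inl _ => 1
  | .inr (.inl _) => 1
  | .inr (.inr (.inl _)) => 1
  | .inr (.inr (.inr l)) => l.length + 1

theorem szg_eq (g : CG) : (toG g).size = szg g := by
  rcases g with p | p | r | l
  · rfl
  · rfl
  · rfl
  · simp [toG, Gate.size, szg]

theorem size_toC (c : List CG × CW) : (toC c).size = (c.1.map szg).sum := by
  unfold Circuit.size toC
  rw [List.map_map]
  congr 1
  apply List.map_congr_left
  intro g _
  exact szg_eq g

theorem poly_szg : Poly szg := by
  refine (Poly.sumCases (o := fun g : CG => g) (g := fun _ _ => 1)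
    (h := fun _ (r : (CW × CW) ⊕ CW ⊕ List CW) => match r with
      | .inl _ => 1
      | .inr r => match r with
        | .inl _ => 1
        | .inr l => l.length + 1) Poly.id (NPC.Poly.const 1) ?_).congr
    (by rintro (p | p | r | l) <;> rfl)
  refine (Poly.sumCases (o := fun p : CG × ((CW × CW) ⊕ CW ⊕ List CW) => p.2)
    (g := fun _ _ => 1) (h := fun _ (r : CW ⊕ List CW) => match r with
        | .inl _ => 1
        | .inr l => l.length + 1) (Poly.snd Poly.id) (NPC.Poly.const 1) ?_).congr
    (by rintro ⟨_, p | r | l⟩ <;> rfl)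
  refine (Poly.sumCases (o := fun p : (CG × ((CW × CW) ⊕ CW ⊕ List CW)) × (CW ⊕ List CW) => p.2)
    (g := fun _ _ => 1) (h := fun _ (l : List CW) => l.length + 1) (Poly.snd Poly.id)
    (NPC.Poly.const 1) (Poly.succ (Poly.length (Poly.snd Poly.id)))).congr
    (by rintro ⟨_, r | l⟩ <;> rfl)

/-! ### the verifier -/

/-- certificates -/
abbrev D : Type := (List CG × CW) × List (List Bool)

/-- the pairs (input, values of the gates) -/
def prs (d : D) (T : List Bool) : List (List Bool × List Bool) := (cubeOf T).zip d.2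

/-- all questions -/
def QF (d : D) (T : List Bool) : List (List Bool) :=
  (prs d T).flatMap fun p => qs d.1.1 p.1 p.2

/-- all claimed answers -/
def CF (d : D) (T : List Bool) : List Bool := (prs d T).flatMap fun p => cs d.1.1 p.2

/-- all outputs -/
def OF (d : D) (T : List Bool) : List Bool := (prs d T).map fun p => (toW d.1.2).val p.1 p.2

/-- the check -/
def chk (t : List CG × CW → Bool) (d : D) (T S ans : List Bool) : Bool :=
  (S.all fun b => b) && decide ((cubeOf T).length = T.length) &&
    decide (d.2.length = T.length) && ((prs d T).all fun p => oks d.1.1 p.1 p.2) &&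
    decide (ans = CF d T) && decide (T = OF d T) && decide ((d.1.1.map szg).sum ≤ S.length) &&
    t d.1

/-- the questions of the verifier -/
def Qv (z : List Bool) : List (List Bool) :=
  match unbits D (unpair z).1 with
  | none => []
  | some d => QF d (unpair (unpair z).2).1

/-- the answer of the verifier -/
def Hv (t : List CG × CW → Bool) (p : List Bool × List Bool) : List Bool :=
  match unbits D (unpair p.1).1 with
  | none => []
  | some d => [chk t d (unpair (unpair p.1).2).1 (unpair (unpair p.1).2).2 p.2 &&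
      decide (pairBits (unpair (unpair p.1).2).1 (unpair (unpair p.1).2).2 = (unpair p.1).2)]

section poly

variable {α : Type} [TEnc α]

theorem poly_prs (I : Inp) {d : α → D} {T : α → List Bool} (hd : Poly d) (hT : Poly T) :
    Poly (fun a => prs (d a) (T a)) :=
  Poly.zip (I.poly_cubeOf.comp hT) (Poly.snd hd)

theorem poly_QF (I : Inp) {d : α → D} {T : α → List Bool} (hd : Poly d) (hT : Poly T) :
    Poly (fun a => QF (d a) (T a)) := by
  refine Poly.flatMap (F := fun a p => qs (d a).1.1 p.1 p.2) (poly_prs I hd hT) ?_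
  exact I.poly_qs.comp (Poly.pair (Poly.fst (Poly.fst (hd.comp (Poly.fst Poly.id))))
    (Poly.pair (Poly.fst (Poly.snd Poly.id)) (Poly.snd (Poly.snd Poly.id))))

theorem poly_CF (I : Inp) {d : α → D} {T : α → List Bool} (hd : Poly d) (hT : Poly T) :
    Poly (fun a => CF (d a) (T a)) := by
  refine Poly.flatMap (F := fun a p => cs (d a).1.1 p.2) (poly_prs I hd hT) ?_
  exact I.poly_cs.comp (Poly.pair (Poly.fst (Poly.fst (hd.comp (Poly.fst Poly.id))))
    (Poly.snd (Poly.snd Poly.id)))

theorem poly_OF (I : Inp) {d : α → D} {T : α → List Bool} (hd : Poly d) (hT : Poly T) :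
    Poly (fun a => OF (d a) (T a)) := by
  refine NPC.Poly.map (F := fun a p => (toW (d a).1.2).val p.1 p.2) (poly_prs I hd hT) ?_
  exact I.poly_val.comp (Poly.pair (Poly.snd (Poly.fst (hd.comp (Poly.fst Poly.id))))
    (Poly.pair (Poly.fst (Poly.snd Poly.id)) (Poly.snd (Poly.snd Poly.id))))

theorem poly_chk (I : Inp) {t : List CG × CW → Bool} (ht : Poly t) {d : α → D} {T S ans : α → List Bool}
    (hd : Poly d) (hT : Poly T) (hS : Poly S) (ha : Poly ans) :
    Poly (fun a => chk t (d a) (T a) (S a) (ans a)) := by
  unfold chk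
  refine Poly.and (Poly.and (Poly.and (Poly.and (Poly.and (Poly.and (Poly.and ?_ ?_) ?_) ?_) ?_)
    ?_) ?_) ?_
  · exact Poly.all (p := fun _ b => b) hS (Poly.snd Poly.id)
  · exact Poly.decide_eq (Poly.length (I.poly_cubeOf.comp hT)) (Poly.length hT)
  · exact Poly.decide_eq (Poly.length (Poly.snd hd)) (Poly.length hT)
  · refine Poly.all (p := fun a p => oks (d a).1.1 p.1 p.2) (poly_prs I hd hT) ?_
    exact I.poly_oks.comp (Poly.pair (Poly.fst (Poly.fst (hd.comp (Poly.fst Poly.id))))
      (Poly.pair (Poly.fst (Poly.snd Poly.id)) (Poly.snd (Poly.snd Poly.id))))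
  · exact Poly.decide_eq ha (poly_CF I hd hT)
  · exact Poly.decide_eq hT (poly_OF I hd hT)
  · exact Poly.decide_le (Poly.sum (NPC.Poly.map (F := fun _ g => szg g) (Poly.fst (Poly.fst hd))
      (poly_szg.comp (Poly.snd Poly.id)))) (Poly.length hS)
  · exact ht.comp (Poly.fst hd)

end poly

theorem poly_Qv (I : Inp) : Poly Qv := by
  refine (Poly.optCases (o := fun z : List Bool => unbits D (unpair z).1)
    (g := fun _ => ([] : List (List Bool))) (h := fun z d => QF d (unpair (unpair z).2).1)
    (poly_unbits.comp (Poly.fst poly_unpair)) (NPC.Poly.const []) ?_).congr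
    (fun z => by unfold Qv; cases unbits D (unpair z).1 <;> rfl)
  exact poly_QF I (Poly.snd Poly.id)
    (Poly.fst (poly_unpair.comp (Poly.snd (poly_unpair.comp (Poly.fst Poly.id)))))

theorem poly_Hv (I : Inp) {t : List CG × CW → Bool} (ht : Poly t) : Poly (Hv t) := by
  refine (Poly.optCases (o := fun p : List Bool × List Bool => unbits D (unpair p.1).1)
    (g := fun _ => ([] : List Bool)) (h := fun p d =>
      [chk t d (unpair (unpair p.1).2).1 (unpair (unpair p.1).2).2 p.2 &&
      decide (pairBits (unpair (unpair p.1).2).1 (unpair (unpair p.1).2).2 = (unpair p.1).2)])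
    (poly_unbits.comp (Poly.fst (poly_unpair.comp (Poly.fst Poly.id)))) (NPC.Poly.const []) ?_).congr
    (fun p => by unfold Hv; cases unbits D (unpair p.1).1 <;> rfl)
  have h1 : Poly (fun x : (List Bool × List Bool) × D => unpair x.1.1) :=
    poly_unpair.comp (Poly.fst (Poly.fst Poly.id))
  have h2 : Poly (fun x : (List Bool × List Bool) × D => unpair (unpair x.1.1).2) :=
    poly_unpair.comp (Poly.snd h1)
  exact Poly.cons (Poly.and (poly_chk I ht (Poly.snd Poly.id) (Poly.fst h2) (Poly.snd h2)
    (Poly.snd (Poly.fst Poly.id)))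
    (Poly.decide_eq (H622R2.poly_pairBits (Poly.fst h2) (Poly.snd h2)) (Poly.snd h1)))
    (NPC.Poly.const [])

/-! ### meaning -/

theorem flatMap_inj {α β : Type} (l : List α) (f g : α → List β)
    (hlen : ∀ a, (f a).length = (g a).length) (h : l.flatMap f = l.flatMap g) :
    ∀ a ∈ l, f a = g a := by
  induction l with
  | nil => intro a ha; simp at ha
  | cons b l ih =>
    rw [List.flatMap_cons, List.flatMap_cons] at h
    obtain ⟨h1, h2⟩ := List.append_inj h (hlen b)
    intro a ha
    rcases List.mem_cons.1 ha with rfl | ha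
    · exact h1
    · exact ih h2 a ha

theorem length_qs_cs (gs : List CG) (x v : List Bool) :
    (qs gs x v).length = (cs gs v).length := by
  unfold qs cs
  rw [List.length_flatMap, List.length_flatMap]
  congr 1
  apply List.map_congr_left
  rintro ⟨g, i⟩ _
  rcases g with p | p | r | l <;> rfl

theorem sound (I : Inp) {t : List CG × CW → Bool} (A : Oracle) {d : D} {T S : List Bool}
    (h : chk t d T S ((QF d T).map A) = true) :
    ∃ n, T = table n ((toC d.1).eval A) ∧ S = List.replicate S.length true ∧
      (toC d.1).size ≤ S.length ∧ t d.1 = true := by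
  unfold chk at h
  simp only [Bool.and_eq_true, decide_eq_true_eq, List.all_eq_true] at h
  obtain ⟨⟨⟨⟨⟨⟨⟨h1, h2⟩, h3⟩, h4⟩, h5⟩, h6⟩, h7⟩, h8⟩ := h
  obtain ⟨n, hn1, hn2⟩ := I.exists_of_cubeOf h2
  refine ⟨n, ?_, ?_, by rw [size_toC]; exact h7, h8⟩
  · have h9 : ∀ p ∈ prs d T, (qs d.1.1 p.1 p.2).map A = cs d.1.1 p.2 := by
      apply flatMap_inj
      · intro p
        rw [List.length_map, length_qs_cs]
      · unfold QF CF at h5
        rw [List.map_flatMap] at h5
        exact h5
    have h10 : ∀ p ∈ prs d T, (toW d.1.2).val p.1 p.2 = (toC d.1).eval A p.1 := by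
      intro p hp
      have := (I.gateVals_iff A d.1.1 p.1 p.2).2 ⟨h4 p hp, h9 p hp⟩
      unfold Circuit.eval toC
      rw [← this]
    rw [h6]
    unfold OF table
    rw [List.map_congr_left h10, ← hn2]
    have h11 : (prs d T).map (fun p => (toC d.1).eval A p.1) =
        ((prs d T).map Prod.fst).map ((toC d.1).eval A) := by
      rw [List.map_map]; rfl
    rw [h11]
    unfold prs
    rw [List.map_fst_zip (by rw [h2, h3])]
  · exact List.eq_replicate_iff.2 ⟨rfl, h1⟩

theorem complete (I : Inp) {t : List CG × CW → Bool} (A : Oracle) {n s : ℕ} {C : Circuit}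
    (hs : C.size ≤ s) (ht : t (ofC C) = true) :
    chk t (ofC C, (cube n).map fun x => gateVals A x C.gates) (table n (C.eval A))
      (List.replicate s true)
      ((QF (ofC C, (cube n).map fun x => gateVals A x C.gates) (table n (C.eval A))).map A) =
      true := by
  have hT : (table n (C.eval A)).length = 2 ^ n := by
    unfold table; rw [List.length_map, length_cube]
  have hcube := I.cubeOf_eq hT
  have hprs : prs (ofC C, (cube n).map fun x => gateVals A x C.gates) (table n (C.eval A)) =
      (cube n).map fun x => (x, gateVals A x C.gates) := by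
    unfold prs
    rw [hcube, List.map_prod_left_eq_zip]
  have hgs : (ofC C).1.map toG = C.gates := congrArg Circuit.gates (toC_ofC C)
  have hall : ∀ x, oks (ofC C).1 x (gateVals A x C.gates) = true ∧
      (qs (ofC C).1 x (gateVals A x C.gates)).map A = cs (ofC C).1 (gateVals A x C.gates) := by
    intro x
    apply (I.gateVals_iff A (ofC C).1 x (gateVals A x C.gates)).1
    rw [hgs]
  unfold chk
  simp only [Bool.and_eq_true, decide_eq_true_eq, List.all_eq_true]
  refine ⟨⟨⟨⟨⟨⟨⟨?_, ?_⟩, ?_⟩, ?_⟩, ?_⟩, ?_⟩, ?_⟩, ht⟩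
  · intro b hb
    exact (List.mem_replicate.1 hb).2
  · rw [hcube, length_cube, hT]
  · rw [List.length_map, length_cube, hT]
  · intro p hp
    rw [hprs] at hp
    obtain ⟨x, _, rfl⟩ := List.mem_map.1 hp
    exact (hall x).1
  · unfold QF CF
    rw [List.map_flatMap, hprs, List.flatMap_map, List.flatMap_map]
    congr 1
    funext x
    exact (hall x).2
  · unfold OF
    rw [hprs, List.map_map]
    unfold table
    apply List.map_congr_left
    intro x _
    have h1 : toW (ofC C).2 = C.out := congrArg Circuit.out (toC_ofC C)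
    simp only [Function.comp_apply, h1]
    rfl
  · rw [← size_toC, toC_ofC, List.length_replicate]
    exact hs

/-! ### the length of the certificate -/

theorem sz_ofW (n k : ℕ) (r : Wire) : NPC.sz (ofW (CNT.nrmW n k r)) ≤ 4 * (n + k) + 20 := by
  cases r with
  | inp i =>
    simp only [CNT.nrmW]
    split_ifs with h
    · have h1 := sz_nat_le i
      have h2 := Poly.size_le_self i
      simp only [ofW, sz_inl]
      omega
    · simp [ofW]
  | cst b =>
    have := sz_bool_le b
    simp only [CNT.nrmW, ofW, sz_inl, sz_inr]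
    omega
  | gate j =>
    simp only [CNT.nrmW]
    split_ifs with h
    · have h1 := sz_nat_le j
      have h2 := Poly.size_le_self j
      simp only [ofW, sz_inr]
      omega
    · simp [ofW]

theorem sz_ofG (n k : ℕ) (g : Gate) :
    NPC.sz (ofG (CNT.nrmG n k g)) ≤ (g.size + 2) * (4 * (n + k) + 30) := by
  have hw := sz_ofW n k
  cases g with
  | and r s =>
    have h1 := hw r
    have h2 := hw s
    simp only [CNT.nrmG, ofG, sz_inl, sz_pair, Gate.size]
    omega
  | or r s =>
    have h1 := hw r
    have h2 := hw s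
    simp only [CNT.nrmG, ofG, sz_inl, sz_inr, sz_pair, Gate.size]
    omega
  | not r =>
    have h1 := hw r
    simp only [CNT.nrmG, ofG, sz_inl, sz_inr, Gate.size]
    omega
  | ask l =>
    have h1 := sz_le_length_mul ((l.map (CNT.nrmW n k)).map ofW) (4 * (n + k) + 20) (by
      intro a ha
      obtain ⟨b, hb, rfl⟩ := List.mem_map.1 ha
      obtain ⟨r, _, rfl⟩ := List.mem_map.1 hb
      exact hw r)
    rw [List.length_map, List.length_map] at h1
    simp only [CNT.nrmG, ofG, sz_inr, Gate.size]
    nlinarith

theorem length_gateVals (A : Oracle) (x : List Bool) (gs : List Gate) :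
    (gateVals A x gs).length = gs.length := by
  unfold gateVals
  rw [CNT.length_foldl]
  simp

theorem sz_cert (A : Oracle) {n s N : ℕ} {C : Circuit} (hs : C.size ≤ s) (hn : 2 ^ n ≤ N)
    (hsN : s ≤ N) :
    NPC.sz (ofC (CNT.nrm n s C), (cube n).map fun x => gateVals A x (CNT.nrm n s C).gates) ≤
      N * ((N + 2) * (8 * N + 30) + 1) + N * (4 * N + 2) + 8 * N + 30 := by
  have hnN : n ≤ N := (Nat.lt_two_pow_self.le).trans hn
  have hg : C.gates.length ≤ s := (CNT.length_gates_le C).trans hs
  have h1 : NPC.sz (ofC (CNT.nrm n s C)).1 ≤ N * ((N + 2) * (8 * N + 30) + 1) + 1 := by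
    have h2 := sz_le_length_mul (ofC (CNT.nrm n s C)).1 ((N + 2) * (8 * N + 30)) (by
      intro a ha
      unfold ofC CNT.nrm at ha
      obtain ⟨b, hb, rfl⟩ := List.mem_map.1 ha
      obtain ⟨g, hgm, rfl⟩ := List.mem_map.1 hb
      refine (sz_ofG n s g).trans ?_
      have h3 : g.size ≤ C.size := by
        unfold Circuit.size
        exact List.single_le_sum (fun _ _ => Nat.zero_le _) _ (List.mem_map_of_mem hgm)
      exact Nat.mul_le_mul (by omega) (by omega))
    have h4 : (ofC (CNT.nrm n s C)).1.length ≤ N := by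
      unfold ofC CNT.nrm
      simp only [List.length_map]
      omega
    exact h2.trans (Nat.add_le_add_right (Nat.mul_le_mul_right _ h4) 1)
  have h5 : NPC.sz (ofC (CNT.nrm n s C)).2 ≤ 8 * N + 20 := by
    have := sz_ofW n s C.out
    unfold ofC CNT.nrm
    simp only
    omega
  have h6 : NPC.sz ((cube n).map fun x => gateVals A x (CNT.nrm n s C).gates) ≤
      N * (4 * N + 2) + 1 := by
    have h7 := sz_le_length_mul ((cube n).map fun x => gateVals A x (CNT.nrm n s C).gates)
      (4 * N + 1) (by
        intro a ha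
        obtain ⟨x, _, rfl⟩ := List.mem_map.1 ha
        refine (sz_listBool_le _).trans ?_
        rw [length_gateVals]
        unfold CNT.nrm
        simp only [List.length_map]
        omega)
    rw [List.length_map, length_cube] at h7
    exact h7.trans (Nat.add_le_add_right (Nat.mul_le_mul_right _ hn) 1)
  have h8 : NPC.sz (ofC (CNT.nrm n s C)) = NPC.sz (ofC (CNT.nrm n s C)).1 +
      NPC.sz (ofC (CNT.nrm n s C)).2 + 1 := sz_pair _ _
  rw [sz_pair, h8]
  omega

end NPM

open NPM in
/-- the minimum size problem is in `NP` relative to the oracle -/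
theorem isNP_minSize_of (I : Inp) (Φ : Circuit → Prop) (hnrm : ∀ n k C, Φ C → Φ (CNT.nrm n k C))
    (t : List CG × CW → Bool) (ht : Poly t) (hΦ : ∀ c, t c = true ↔ Φ (toC c)) (A : Oracle) :
    IsNP A (MinSize Φ A) := by
  refine ⟨fun z => Hv t (z, (Qv z).map A),
    Polynomial.X * ((Polynomial.X + 2) * (8 * Polynomial.X + 30) + 1) +
      Polynomial.X * (4 * Polynomial.X + 2) + 8 * Polynomial.X + 30,
    IsFP.tt (poly_Qv I) (poly_Hv I ht), ?_⟩
  intro y
  constructor
  · rintro ⟨n, s, C, hC, hs, rfl⟩
    refine ⟨bits (ofC (CNT.nrm n s C), (cube n).map fun x => gateVals A x (CNT.nrm n s C).gates),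
      ?_, ?_⟩
    · rw [bits_length]
      have hlen := A2.length_pairBits (table n (C.eval A)) (List.replicate s true)
      have hT : (table n (C.eval A)).length = 2 ^ n := by
        unfold table; rw [List.length_map, length_cube]
      rw [hT, List.length_replicate] at hlen
      have h1 := sz_cert A (n := n) (s := s)
        (N := (pairBits (table n (C.eval A)) (List.replicate s true)).length) hs
        (by rw [hlen]; omega) (by rw [hlen]; omega)
      refine h1.trans (le_of_eq ?_)
      simp only [Polynomial.eval_add, Polynomial.eval_mul, Polynomial.eval_X,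
        Polynomial.eval_ofNat, Polynomial.eval_one]
    · have hs' : (CNT.nrm n s C).size ≤ s := by rw [CNT.nrm_size]; exact hs
      have htt : t (ofC (CNT.nrm n s C)) = true := by
        rw [hΦ, toC_ofC]; exact hnrm n s C hC
      have h1 := complete I (t := t) A (n := n) hs' htt
      have hTe : table n ((CNT.nrm n s C).eval A) = table n (C.eval A) := by
        unfold table
        apply List.map_congr_left
        intro x hx
        exact CNT.nrm_eval hs A (length_cube_mem n x hx)
      rw [hTe] at h1
      simp only [Hv, Qv, unpair_pairBits, unbits_bits, h1]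
      simp
  · rintro ⟨w, -, hw⟩
    simp only [Hv, Qv, unpair_pairBits] at hw
    cases hd : unbits D w with
    | none => rw [hd] at hw; simp at hw
    | some d =>
      rw [hd] at hw
      simp only [List.cons.injEq, and_true, Bool.and_eq_true, decide_eq_true_eq] at hw
      obtain ⟨h1, h2⟩ := hw
      obtain ⟨n, h3, h4, h5, h6⟩ := sound I A h1
      refine ⟨n, (unpair y).2.length, toC d.1, (hΦ _).1 h6, h5, ?_⟩
      rw [← h3, ← h4, h2]

end Pool.Agent.H943R6.MC
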