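import Pool.Agent.H943R6.MC.Base
import Pool.Agent.H620R2.Gauge.A2
import Pool.Agent.H620R2.GaugeX.NonNullX

/-!
# Exact statements of the tasks (never import this file in a finished file)
-/

namespace Pool.Agent.H943R6.MC

open Pool.Agent.NPC Pool.Agent.H620R2.Gauge Pool.Agent.H622R2.Ckt Finset H568R2

/-! ### Task PRD -/

open Classical in
theorem prd {I : Type*} [Fintype I] [DecidableEq I] {m : ℕ} (C : Finset ℕ) (P : ℕ → Fin m → I)
    (hP : ∀ s ∈ C, ∀ s' ∈ C, ∀ i i', P s i = P s' i' → s = s' ∧ i = i')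
    (G : (I → Bool) → Finset (Fin m → Bool))
    (hG : ∀ a a' : I → Bool, (∀ x, (∀ s ∈ C, ∀ i, x ≠ P s i) → a x = a' x) → G a = G a')
    (δ : ℝ) (hδ : δ ≤ 1) (hcard : ∀ a, δ * 2 ^ m ≤ (G a).card) :
    Ex unif (fun a : I → Bool =>
      if ∀ s ∈ C, (fun i => a (P s i)) ∉ G a then (1 : ℝ) else 0) ≤ (1 - δ) ^ C.card := by
  sorry

/-! ### Task CMB (may use PRD) -/

open Classical in
theorem cmb {I : Type*} [Fintype I] [DecidableEq I] {m q K : ℕ} (hq : 1 ≤ q) (P : ℕ → Fin m → I)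
    (hP : ∀ s < K, ∀ s' < K, ∀ i i', P s i = P s' i' → s = s' ∧ i = i')
    (Acc : (Fin m → Bool) → (I → Bool) → Prop)
    (hA : ∀ T a, Acc T a → ∃ Q : Finset I, Q.card ≤ q ∧
      ∀ a' : I → Bool, (∀ x ∈ Q, a' x = a x) → Acc T a') :
    Ex unif (fun a : I → Bool =>
      if (∀ s < K, ¬ Acc (fun i => a (P s i)) a) ∧
        (∃ G : Finset (Fin m → Bool), (∀ T ∈ G, Acc T a) ∧ (3 / 4 : ℝ) * 2 ^ m ≤ G.card)
      then (1 : ℝ) else 0) ≤ 2 * q * (5 / 8) ^ (K / (2 * q)) := by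
  sorry

/-! ### Task EVB (may use CMB) -/

open Classical in
theorem evM_bound (θ : Par) {N j : ℕ} (hN : 2 ^ (2 ^ j + 2 * j + 1) ≤ N) :
    Ex unif (fun a : Fin N → Bool => if EvM θ N j hN a then (1 : ℝ) else 0) ≤
      2 ^ ((Par.P1 θ).eval (2 ^ j) + 1) * (2 * ((Par.P2 θ).eval (2 ^ j) + 1) *
        (5 / 8) ^ (2 ^ 2 ^ j / (2 * ((Par.P2 θ).eval (2 ^ j) + 1)))) := by
  sorry

/-! ### Task PLT -/

theorem size_askC (u : List Bool) (n : ℕ) : (askC u n).size = u.length + n + 1 := by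
  sorry

theorem eval_askC (u : List Bool) (A : Oracle) (x : List Bool) :
    (askC u x.length).eval A x = A (u ++ x) := by
  sorry

theorem askC_isFormula (u : List Bool) (n : ℕ) : IsFormula (askC u n) := by
  sorry

theorem planted (Φ : Circuit → Prop) (hΦ : ∀ u n, Φ (askC u n)) (A : Oracle) {N j : ℕ}
    (hN : 2 ^ (2 ^ j + 2 * j + 1) ≤ N) (s : ℕ) :
    inst j (fun i => pre N A (pos N j hN s i)) ∈ MinSize Φ A := by
  sorry

theorem pos_inj {N j : ℕ} (hN : 2 ^ (2 ^ j + 2 * j + 1) ≤ N) {s s' : ℕ} (hs : s < 2 ^ 2 ^ j)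
    (hs' : s' < 2 ^ 2 ^ j) {i i' : Fin (2 ^ (2 * j))} (h : pos N j hN s i = pos N j hN s' i') :
    s = s' ∧ i = i' := by
  sorry

theorem length_inst (j : ℕ) (T : Fin (2 ^ (2 * j)) → Bool) : (inst j T).length = len j := by
  sorry

theorem len_le (j : ℕ) : len j ≤ lenP.eval (2 ^ j) := by
  sorry

/-! ### Task HRD -/

open Classical in
theorem few_easy (Φ : Circuit → Prop) (A : Oracle) {j : ℕ} (hj : 8 ≤ j) :
    ((univ.filter (fun T : Fin (2 ^ (2 * j)) → Bool => inst j T ∈ MinSize Φ A)).card : ℝ) ≤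
      (1 / 4 : ℝ) * 2 ^ 2 ^ (2 * j) := by
  sorry

/-! ### Task EVM (may use PLT and HRD) -/

theorem evM_of_easy (Φ : Circuit → Prop) (hΦ : ∀ u n, Φ (askC u n)) (θ : Par) :
    ∃ Q : Polynomial ℕ, ∀ A ∈ EasyM Φ θ, ∀ j, 8 ≤ j → ∀ (N : ℕ)
      (hN : 2 ^ (2 ^ j + 2 * j + 1) ≤ N), 2 ^ (Q.eval (2 ^ j) + 1) ≤ N →
      EvM θ N j hN (pre N A) := by
  sorry

/-! ### Task ASY -/

theorem asy (P1 P2 Q : Polynomial ℕ) {f : ℕ → ℝ} (hf : Cond f) (δ : ℝ) (hδ : 0 < δ) :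
    ∃ j, 8 ≤ j ∧ ∃ N : ℕ, 2 ^ (Q.eval (2 ^ j) + 1) ≤ N ∧
      ((2 : ℝ) ^ (P1.eval (2 ^ j) + 1) * (2 * (P2.eval (2 ^ j) + 1) *
        (5 / 8) ^ (2 ^ 2 ^ j / (2 * (P2.eval (2 ^ j) + 1))))) * 2 ^ f N ≤ δ := by
  sorry

/-! ### Task NPX -/

theorem poly_cubeOf : Poly cubeOf := by
  sorry

theorem cubeOf_eq {n : ℕ} {T : List Bool} (h : T.length = 2 ^ n) : cubeOf T = cube n := by
  sorry

theorem exists_of_cubeOf {T : List Bool} (h : (cubeOf T).length = T.length) :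
    ∃ n, T.length = 2 ^ n ∧ cubeOf T = cube n := by
  sorry

/-! ### Task NPQ -/

theorem poly_qs : Poly (fun p : List CG × List Bool × List Bool => qs p.1 p.2.1 p.2.2) := by
  sorry

theorem poly_cs : Poly (fun p : List CG × List Bool => cs p.1 p.2) := by
  sorry

theorem poly_oks : Poly (fun p : List CG × List Bool × List Bool => oks p.1 p.2.1 p.2.2) := by
  sorry

theorem poly_val : Poly (fun p : CW × List Bool × List Bool =>
    (toW p.1).val p.2.1 p.2.2) := by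
  sorry

/-! ### Task NPV -/

theorem gateVals_iff (A : Oracle) (gs : List CG) (x v : List Bool) :
    v = gateVals A x (gs.map toG) ↔ oks gs x v = true ∧ (qs gs x v).map A = cs gs v := by
  sorry

theorem toC_surjective : Function.Surjective toC := by
  sorry

/-! ### Task NPM (may use NPX, NPQ, NPV) -/

theorem isNP_minSize (Φ : Circuit → Prop) (hnrm : ∀ n k C, Φ C → Φ (CNT.nrm n k C))
    (t : List CG × CW → Bool) (ht : Poly t) (hΦ : ∀ c, t c = true ↔ Φ (toC c)) (A : Oracle) :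
    IsNP A (MinSize Φ A) := by
  sorry

/-! ### Task NPF -/

theorem isFormula_nrm (n k : ℕ) (C : Circuit) (h : IsFormula C) : IsFormula (CNT.nrm n k C) := by
  sorry

theorem exists_test : ∃ t : List CG × CW → Bool, Poly t ∧ ∀ c, t c = true ↔ IsFormula (toC c) := by
  sorry

end Pool.Agent.H943R6.MC
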